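import Pool.Agent.W2helper59.LN.Stm

set_option autoImplicit false

namespace Pool.Agent.W2helper71.LN

open Finset MvPolynomial Pool.Agent.W2helper59.LN

/-! ### P12a -/

lemma norm1_eq_sum (P : MvPolynomial (Fin 2) ℤ) (s : Finset (Fin 2 →₀ ℕ)) (h : P.support ⊆ s) :
    norm1 P = ∑ m ∈ s, |P.coeff m| := by
  unfold norm1
  apply Finset.sum_subset h
  intro m _ hm
  have : P.coeff m = 0 := by simpa [MvPolynomial.mem_support_iff] using hm
  simp [this]

lemma norm1_nonneg (P : MvPolynomial (Fin 2) ℤ) : 0 ≤ norm1 P :=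
  Finset.sum_nonneg fun _ _ => abs_nonneg _

lemma norm1_add (P Q : MvPolynomial (Fin 2) ℤ) : norm1 (P + Q) ≤ norm1 P + norm1 Q := by
  classical
  rw [norm1_eq_sum (P + Q) (P.support ∪ Q.support) MvPolynomial.support_add,
    norm1_eq_sum P (P.support ∪ Q.support) Finset.subset_union_left,
    norm1_eq_sum Q (P.support ∪ Q.support) Finset.subset_union_right, ← Finset.sum_add_distrib]
  apply Finset.sum_le_sum
  intro m _
  rw [MvPolynomial.coeff_add]
  exact abs_add_le _ _

lemma norm1_sum {ι : Type*} (s : Finset ι) (f : ι → MvPolynomial (Fin 2) ℤ) :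
    norm1 (∑ i ∈ s, f i) ≤ ∑ i ∈ s, norm1 (f i) := by
  classical
  induction s using Finset.induction_on with
  | empty => simp [norm1]
  | insert a s ha ih =>
    rw [Finset.sum_insert ha, Finset.sum_insert ha]
    exact (norm1_add _ _).trans (by linarith)

lemma norm1_monomial (m : Fin 2 →₀ ℕ) (c : ℤ) : norm1 (monomial m c) = |c| := by
  classical
  rw [norm1_eq_sum (monomial m c) {m} MvPolynomial.support_monomial_subset]
  simp

lemma norm1_mul (P Q : MvPolynomial (Fin 2) ℤ) : norm1 (P * Q) ≤ norm1 P * norm1 Q := by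
  classical
  have hP : P = ∑ m ∈ P.support, monomial m (P.coeff m) := P.as_sum
  have hQ : Q = ∑ m ∈ Q.support, monomial m (Q.coeff m) := Q.as_sum
  have h : P * Q = ∑ m ∈ P.support, ∑ n ∈ Q.support,
      monomial (m + n) (P.coeff m * Q.coeff n) := by
    conv_lhs => rw [hP, hQ]
    rw [Finset.sum_mul_sum]
    simp [MvPolynomial.monomial_mul]
  rw [h]
  calc norm1 (∑ m ∈ P.support, ∑ n ∈ Q.support, monomial (m + n) (P.coeff m * Q.coeff n))
      ≤ ∑ m ∈ P.support, norm1 (∑ n ∈ Q.support, monomial (m + n) (P.coeff m * Q.coeff n)) :=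
        norm1_sum _ _
    _ ≤ ∑ m ∈ P.support, ∑ n ∈ Q.support, norm1 (monomial (m + n) (P.coeff m * Q.coeff n)) :=
        Finset.sum_le_sum fun m _ => norm1_sum _ _
    _ = ∑ m ∈ P.support, ∑ n ∈ Q.support, |P.coeff m| * |Q.coeff n| := by
        simp only [norm1_monomial, abs_mul]
    _ = norm1 P * norm1 Q := by
        unfold norm1
        rw [Finset.sum_mul_sum]

lemma norm1_aeval (P : MvPolynomial (Fin 2) ℤ) (z : Fin 2 → ℂ) (hz : ∀ i, ‖z i‖ ≤ 1) :
    ‖MvPolynomial.aeval z P‖ ≤ (norm1 P : ℝ) := by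
  rw [MvPolynomial.aeval_def, MvPolynomial.eval₂_eq]
  refine (norm_sum_le _ _).trans ?_
  unfold norm1
  push_cast
  apply Finset.sum_le_sum
  intro m _
  rw [norm_mul]
  have h1 : ‖(algebraMap ℤ ℂ) (P.coeff m)‖ = |((P.coeff m : ℤ) : ℝ)| := by
    simp
  rw [h1]
  have h2 : ‖∏ i ∈ m.support, z i ^ m i‖ ≤ 1 := by
    rw [norm_prod]
    apply Finset.prod_le_one
    · intro i _; positivity
    · intro i _
      rw [norm_pow]
      exact pow_le_one₀ (norm_nonneg _) (hz i)
  calc |((P.coeff m : ℤ) : ℝ)| * ‖∏ i ∈ m.support, z i ^ m i‖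
      ≤ |((P.coeff m : ℤ) : ℝ)| * 1 := by gcongr
    _ = _ := by simp

theorem p12_norm : P12_norm := by
  refine ⟨norm1_add, norm1_mul, ?_, ?_, ?_, norm1_nonneg, ?_⟩
  · intro c
    exact norm1_monomial 0 c
  · intro i
    have : (MvPolynomial.X i : MvPolynomial (Fin 2) ℤ) = monomial (Finsupp.single i 1) 1 := rfl
    rw [this, norm1_monomial]; simp
  · intro P
    unfold norm1
    rw [MvPolynomial.support_neg]
    simp
  · intro P z hz
    exact norm1_aeval P z hz

/-! ### P12b -/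

lemma land_step (b x y u v : ℕ) (hx : x < 2 ^ b) (hy : y < 2 ^ b) :
    (2 ^ b * u + x) &&& (2 ^ b * v + y) = 2 ^ b * (u &&& v) + (x &&& y) := by
  apply Nat.eq_of_testBit_eq
  intro i
  have hxy : x &&& y < 2 ^ b := lt_of_le_of_lt Nat.and_le_left hx
  rw [Nat.testBit_and, Nat.testBit_two_pow_mul_add u hx, Nat.testBit_two_pow_mul_add v hy,
    Nat.testBit_two_pow_mul_add _ hxy]
  split_ifs <;> simp [Nat.testBit_and]

lemma sum_shift (B n : ℕ) (f : ℕ → ℕ) :
    ∑ k ∈ range (n + 1), f k * B ^ k = B * (∑ k ∈ range n, f (k + 1) * B ^ k) + f 0 := by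
  rw [Finset.sum_range_succ', Finset.mul_sum]
  congr 1
  · apply Finset.sum_congr rfl
    intro k _
    ring
  · simp

lemma land_sum (b : ℕ) : ∀ (n : ℕ) (f g : ℕ → ℕ), (∀ k, k < n → f k < 2 ^ b) →
    (∀ k, k < n → g k < 2 ^ b) →
    (∑ k ∈ range n, f k * (2 ^ b) ^ k) &&& (∑ k ∈ range n, g k * (2 ^ b) ^ k)
      = ∑ k ∈ range n, (f k &&& g k) * (2 ^ b) ^ k := by
  intro n
  induction n with
  | zero => intro f g _ _; simp
  | succ n ih =>
    intro f g hf hg
    rw [sum_shift, sum_shift, sum_shift, land_step b _ _ _ _ (hf 0 (by omega)) (hg 0 (by omega)),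
      ih (fun k => f (k + 1)) (fun k => g (k + 1)) (fun k hk => hf _ (by omega))
        (fun k hk => hg _ (by omega))]

lemma land_top (b y : ℕ) (hb : 1 ≤ b) (hy : y < 2 ^ b) :
    y &&& 2 ^ (b - 1) = if 2 ^ (b - 1) ≤ y then 2 ^ (b - 1) else 0 := by
  obtain ⟨c, rfl⟩ : ∃ c, b = c + 1 := ⟨b - 1, by omega⟩
  simp only [Nat.add_sub_cancel]
  have hy' : y < 2 ^ c * 2 := by rw [← pow_succ]; exact hy
  split_ifs with h
  · obtain ⟨r, rfl⟩ : ∃ r, y = 2 ^ c * 1 + r := ⟨y - 2 ^ c, by omega⟩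
    have hr : r < 2 ^ c := by omega
    have := land_step c r 0 1 1 hr (by positivity)
    simpa using this
  · have hr : y < 2 ^ c := by omega
    have := land_step c y 0 0 1 hr (by positivity)
    simpa using this

lemma land_low (b y : ℕ) (hb : 1 ≤ b) (hy : y < 2 ^ b) (h : 2 ^ (b - 1) ≤ y) :
    y &&& (2 ^ (b - 1) - 1) = y - 2 ^ (b - 1) := by
  obtain ⟨c, rfl⟩ : ∃ c, b = c + 1 := ⟨b - 1, by omega⟩
  simp only [Nat.add_sub_cancel] at *
  have hy' : y < 2 ^ c * 2 := by rw [← pow_succ]; exact hy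
  rw [Nat.and_two_pow_sub_one_eq_mod]
  rw [Nat.mod_eq_sub_mod h, Nat.mod_eq_of_lt (by omega)]

lemma geom_nat (B n : ℕ) (hB : 2 ≤ B) : (B ^ n - 1) / (B - 1) = ∑ k ∈ range n, B ^ k := by
  rw [Nat.geomSum_eq hB n]

lemma mod_sum (B n : ℕ) (hB : 2 ≤ B) (f : ℕ → ℕ) :
    (∑ k ∈ range n, f k * B ^ k) % (B - 1) = (∑ k ∈ range n, f k) % (B - 1) := by
  have h1 : B ≡ 1 [MOD (B - 1)] := by
    have h : B - 1 + 1 = B := by omega
    have : (B - 1) + 1 ≡ 1 [MOD (B - 1)] := by simp
    rwa [h] at this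
  have h2 : ∀ k, f k * B ^ k ≡ f k [MOD (B - 1)] := by
    intro k
    have := (h1.pow k).mul_left (f k)
    simpa using this
  induction n with
  | zero => simp
  | succ n ih =>
    rw [Finset.sum_range_succ, Finset.sum_range_succ]
    exact Nat.ModEq.add ih (h2 n)

theorem p12_swar : P12_swar := by
  intro b n c hb hsum
  have hb1 : 1 ≤ b := by omega
  set B : ℕ := 2 ^ b with hB
  set H : ℕ := 2 ^ (b - 1) with hH
  have hBH : B = 2 * H := by
    rw [hB, hH, ← pow_succ']
    congr 1; omega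
  have hH2 : 2 ≤ H := by
    rw [hH]
    calc 2 = 2 ^ 1 := by norm_num
      _ ≤ 2 ^ (b - 1) := Nat.pow_le_pow_right (by norm_num) (by omega)
  have hB2 : 2 ≤ B := by omega
  have hck : ∀ k, k < n → |c k| < (H : ℤ) := by
    intro k hk
    have h1 : |c k| ≤ ∑ k ∈ range n, |c k| :=
      Finset.single_le_sum (f := fun k => |c k|) (fun i _ => abs_nonneg _) (Finset.mem_range.mpr hk)
    have h2 : (H : ℤ) = 2 ^ (b - 1) := by rw [hH]; push_cast; rfl
    rw [h2]; exact lt_of_le_of_lt h1 hsum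
  -- digits
  let y : ℕ → ℕ := fun k => (c k + (H : ℤ)).toNat
  have hy : ∀ k, k < n → ((y k : ℕ) : ℤ) = c k + H := by
    intro k hk
    have := abs_lt.mp (hck k hk)
    exact Int.toNat_of_nonneg (by linarith)
  have hyB : ∀ k, k < n → y k < B := by
    intro k hk
    have h1 := hy k hk
    have h2 := abs_lt.mp (hck k hk)
    have : ((y k : ℕ) : ℤ) < (B : ℤ) := by
      rw [h1, hBH]; push_cast; linarith
    exact_mod_cast this
  -- HE
  have hHE : H * ((2 ^ (b * n) - 1) / (2 ^ b - 1)) = ∑ k ∈ range n, H * B ^ k := by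
    rw [pow_mul, geom_nat _ _ hB2, Finset.mul_sum]
  -- Y
  set X : ℤ := ∑ k ∈ range n, c k * ((2 : ℤ) ^ b) ^ k with hX
  have hBc : ((B : ℕ) : ℤ) = (2 : ℤ) ^ b := by rw [hB]; push_cast; rfl
  have hYeq : (X + ((∑ k ∈ range n, H * B ^ k : ℕ) : ℤ)).toNat = ∑ k ∈ range n, y k * B ^ k := by
    have : X + ((∑ k ∈ range n, H * B ^ k : ℕ) : ℤ) = ((∑ k ∈ range n, y k * B ^ k : ℕ) : ℤ) := by
      push_cast
      rw [hX, ← Finset.sum_add_distrib]
      apply Finset.sum_congr rfl
      intro k hk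
      rw [hy k (Finset.mem_range.mp hk), ← hBc]
      ring
    rw [this, Int.toNat_natCast]
  -- the computation
  let t : ℕ → ℕ := fun k => if H ≤ y k then 1 else 0
  have hland1 : (∑ k ∈ range n, y k * B ^ k) &&& (∑ k ∈ range n, H * B ^ k)
      = ∑ k ∈ range n, (H * t k) * B ^ k := by
    rw [hB, land_sum b n y (fun _ => H) hyB (fun _ _ => by rw [← hB]; omega)]
    apply Finset.sum_congr rfl
    intro k hk
    rw [hH, land_top b (y k) hb1 (hyB k (Finset.mem_range.mp hk))]
    simp only [t, hH]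
    split_ifs <;> simp
  have hM : (∑ k ∈ range n, (H * t k) * B ^ k) / H = ∑ k ∈ range n, t k * B ^ k := by
    have : ∑ k ∈ range n, (H * t k) * B ^ k = H * ∑ k ∈ range n, t k * B ^ k := by
      rw [Finset.mul_sum]; apply Finset.sum_congr rfl; intro k _; ring
    rw [this, Nat.mul_div_cancel_left _ (by omega)]
  have hM2 : (∑ k ∈ range n, t k * B ^ k) * (H - 1) = ∑ k ∈ range n, (t k * (H - 1)) * B ^ k := by
    rw [Finset.sum_mul]; apply Finset.sum_congr rfl; intro k _; ring
  have hPos : (∑ k ∈ range n, y k * B ^ k) &&& (∑ k ∈ range n, (t k * (H - 1)) * B ^ k)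
      = ∑ k ∈ range n, (t k * (y k - H)) * B ^ k := by
    rw [hB, land_sum b n y (fun k => t k * (H - 1)) hyB ?_]
    · apply Finset.sum_congr rfl
      intro k hk
      congr 1
      simp only [t]
      split_ifs with h
      · rw [one_mul, one_mul]
        exact land_low b (y k) hb1 (hyB k (Finset.mem_range.mp hk)) h
      · simp
    · intro k hk
      have : t k * (H - 1) ≤ 1 * (H - 1) := by
        apply Nat.mul_le_mul_right
        simp only [t]; split_ifs <;> omega
      rw [← hB]; omega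
  have hfin : ∀ k, k < n → 2 * (t k * (y k - H)) + H = (c k).natAbs + y k := by
    intro k hk
    have h1 := hy k hk
    by_cases h : H ≤ y k
    · have ht : t k = 1 := by simp [t, h]
      have hc : 0 ≤ c k := by
        have : (H : ℤ) ≤ (y k : ℤ) := by exact_mod_cast h
        linarith
      rw [ht, one_mul]
      have h3 : ((c k).natAbs : ℤ) = c k := by rw [Int.natCast_natAbs, abs_of_nonneg hc]
      zify [h]
      rw [abs_of_nonneg hc, h1]; ring
    · have ht : t k = 0 := by simp [t, h]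
      have hc : c k < 0 := by
        have : (y k : ℤ) < (H : ℤ) := by exact_mod_cast (not_le.mp h)
        linarith
      rw [ht, zero_mul, mul_zero, zero_add]
      zify
      rw [abs_of_neg hc, h1]; ring
  have hsum2 : 2 * (∑ k ∈ range n, (t k * (y k - H)) * B ^ k) + (∑ k ∈ range n, H * B ^ k)
      - (∑ k ∈ range n, y k * B ^ k) = ∑ k ∈ range n, (c k).natAbs * B ^ k := by
    have : 2 * (∑ k ∈ range n, (t k * (y k - H)) * B ^ k) + (∑ k ∈ range n, H * B ^ k)
      = (∑ k ∈ range n, (c k).natAbs * B ^ k) + (∑ k ∈ range n, y k * B ^ k) := by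
      rw [Finset.mul_sum, ← Finset.sum_add_distrib, ← Finset.sum_add_distrib]
      apply Finset.sum_congr rfl
      intro k hk
      have := hfin k (Finset.mem_range.mp hk)
      calc 2 * (t k * (y k - H) * B ^ k) + H * B ^ k
          = (2 * (t k * (y k - H)) + H) * B ^ k := by ring
        _ = ((c k).natAbs + y k) * B ^ k := by rw [this]
        _ = _ := by ring
    omega
  have hsumN : ((∑ k ∈ range n, (c k).natAbs : ℕ) : ℤ) = ∑ k ∈ range n, |c k| := by
    push_cast
    rfl
  have hlt : (∑ k ∈ range n, (c k).natAbs) < B - 1 := by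
    have h1 : (∑ k ∈ range n, (c k).natAbs) < H := by
      have : ((∑ k ∈ range n, (c k).natAbs : ℕ) : ℤ) < (H : ℤ) := by
        rw [hsumN]
        have h2 : (H : ℤ) = 2 ^ (b - 1) := by rw [hH]; push_cast; rfl
        rw [h2]; exact hsum
      exact_mod_cast this
    omega
  have hland1' : Nat.land (∑ k ∈ range n, y k * B ^ k) (∑ k ∈ range n, H * B ^ k)
      = ∑ k ∈ range n, (H * t k) * B ^ k := hland1
  have hPos' : Nat.land (∑ k ∈ range n, y k * B ^ k) (∑ k ∈ range n, (t k * (H - 1)) * B ^ k)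
      = ∑ k ∈ range n, (t k * (y k - H)) * B ^ k := hPos
  have key : swar b n X = ∑ k ∈ range n, (c k).natAbs := by
    unfold swar
    simp only
    rw [← hH, hHE, hYeq, hland1', hM, hM2, hPos', hsum2, ← hB, mod_sum B n hB2, Nat.mod_eq_of_lt hlt]
  rw [key, hsumN]

/-! ### P12c -/

/-- the exponent with `τ`-degree `k / L` and `δ`-degree `k % L` -/
noncomputable def ex (L k : ℕ) : Fin 2 →₀ ℕ :=
  Finsupp.equivFunOnFinite.symm (![k / L, k % L] : Fin 2 → ℕ)

lemma ex_zero (L k : ℕ) : ex L k 0 = k / L := rfl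

lemma ex_one (L k : ℕ) : ex L k 1 = k % L := rfl

lemma ex_inj (L : ℕ) : Function.Injective (ex L) := by
  intro k l h
  have h0 : k / L = l / L := by rw [← ex_zero, h, ex_zero]
  have h1 : k % L = l % L := by rw [← ex_one, h, ex_one]
  rw [← Nat.div_add_mod k L, ← Nat.div_add_mod l L, h0, h1]

lemma support_sub (P : MvPolynomial (Fin 2) ℤ) (L n : ℕ) (hL : 0 < L)
    (h1 : P.degreeOf 1 < L) (h0 : P.degreeOf 0 < n) :
    P.support ⊆ (range (n * L)).image (ex L) := by
  intro m hm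
  have hm0 : m 0 < n := lt_of_le_of_lt (MvPolynomial.le_degreeOf_of_mem_support 0 hm) h0
  have hm1 : m 1 < L := lt_of_le_of_lt (MvPolynomial.le_degreeOf_of_mem_support 1 hm) h1
  rw [Finset.mem_image]
  refine ⟨m 0 * L + m 1, ?_, ?_⟩
  · rw [Finset.mem_range]
    calc m 0 * L + m 1 < m 0 * L + L := by omega
      _ = (m 0 + 1) * L := by ring
      _ ≤ n * L := Nat.mul_le_mul_right _ (by omega)
  · ext i
    fin_cases i
    · change ex L _ 0 = m 0
      rw [ex_zero, Nat.add_comm, Nat.add_mul_div_right _ _ hL, Nat.div_eq_of_lt hm1, zero_add]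
    · change ex L _ 1 = m 1
      rw [ex_one, Nat.add_comm, Nat.add_mul_mod_self_right, Nat.mod_eq_of_lt hm1]

theorem p12_kron : P12_kron := by
  classical
  intro P b L n hb hL h1 h0 hn
  have hsub := support_sub P L n hL h1 h0
  have hN : norm1 P = ∑ k ∈ range (n * L), |P.coeff (ex L k)| := by
    rw [norm1_eq_sum P _ hsub, Finset.sum_image (fun k _ l _ h => ex_inj L h)]
  have hE : MvPolynomial.eval (![(2 ^ b) ^ L, 2 ^ b] : Fin 2 → ℤ) P
      = ∑ k ∈ range (n * L), P.coeff (ex L k) * ((2 : ℤ) ^ b) ^ k := by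
    rw [MvPolynomial.eval_eq']
    rw [Finset.sum_subset hsub (fun m _ hm => by
      have : P.coeff m = 0 := by simpa [MvPolynomial.mem_support_iff] using hm
      simp [this])]
    rw [Finset.sum_image (fun k _ l _ h => ex_inj L h)]
    apply Finset.sum_congr rfl
    intro k _
    congr 1
    rw [Fin.prod_univ_two, ex_zero, ex_one]
    simp only [Matrix.cons_val_zero, Matrix.cons_val_one]
    rw [← pow_mul, ← pow_add, Nat.div_add_mod]
  rw [hE, p12_swar b (n * L) (fun k => P.coeff (ex L k)) hb (by rw [← hN]; exact hn), hN]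

theorem p12 : P12_norm ∧ P12_swar ∧ P12_kron := ⟨p12_norm, p12_swar, p12_kron⟩

end Pool.Agent.W2helper71.LN
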