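import Pool.Agent.W2helper59.LN.Stm

set_option autoImplicit false

namespace Pool.Agent.W2helper71.LN

open Set Pool.Agent.W2helper59.LN

/-! ### elementary estimates -/

lemma pow4_lip (R : ℝ) (v w : ℂ) (hv : ‖v‖ ≤ R) (hw : ‖w‖ ≤ R) :
    ‖v ^ 4 - w ^ 4‖ ≤ 4 * R ^ 3 * ‖v - w‖ := by
  have h : v ^ 4 - w ^ 4 = (v ^ 3 + v ^ 2 * w + v * w ^ 2 + w ^ 3) * (v - w) := by ring
  have hR : 0 ≤ R := (norm_nonneg v).trans hv
  rw [h, norm_mul]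
  gcongr
  calc ‖v ^ 3 + v ^ 2 * w + v * w ^ 2 + w ^ 3‖
      ≤ ‖v ^ 3 + v ^ 2 * w + v * w ^ 2‖ + ‖w ^ 3‖ := norm_add_le _ _
    _ ≤ ‖v ^ 3 + v ^ 2 * w‖ + ‖v * w ^ 2‖ + ‖w ^ 3‖ := by gcongr; exact norm_add_le _ _
    _ ≤ ‖v ^ 3‖ + ‖v ^ 2 * w‖ + ‖v * w ^ 2‖ + ‖w ^ 3‖ := by gcongr; exact norm_add_le _ _
    _ ≤ R ^ 3 + R ^ 2 * R + R * R ^ 2 + R ^ 3 := by
        rw [norm_mul, norm_mul, norm_pow, norm_pow, norm_pow, norm_pow]
        gcongr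
    _ = 4 * R ^ 3 := by ring

lemma pow7_lip (R : ℝ) (v w : ℂ) (hv : ‖v‖ ≤ R) (hw : ‖w‖ ≤ R) :
    ‖v ^ 7 - w ^ 7‖ ≤ 7 * R ^ 6 * ‖v - w‖ := by
  have h : v ^ 7 - w ^ 7 = (∑ i ∈ Finset.range 7, v ^ i * w ^ (6 - i)) * (v - w) := by
    simp only [Finset.sum_range_succ, Finset.sum_range_zero]
    norm_num
    ring
  have hR : 0 ≤ R := (norm_nonneg v).trans hv
  rw [h, norm_mul]
  gcongr
  calc ‖∑ i ∈ Finset.range 7, v ^ i * w ^ (6 - i)‖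
      ≤ ∑ i ∈ Finset.range 7, ‖v ^ i * w ^ (6 - i)‖ := norm_sum_le _ _
    _ ≤ ∑ i ∈ Finset.range 7, R ^ 6 := by
        apply Finset.sum_le_sum
        intro i hi
        rw [norm_mul, norm_pow, norm_pow]
        have hi' : i ≤ 6 := by have := Finset.mem_range.mp hi; omega
        calc ‖v‖ ^ i * ‖w‖ ^ (6 - i) ≤ R ^ i * R ^ (6 - i) := by gcongr
          _ = R ^ 6 := by rw [← pow_add]; congr 1; omega
    _ = 7 * R ^ 6 := by simp

lemma pow4_taylor (R : ℝ) (v w : ℂ) (hv : ‖v‖ ≤ R) (hw : ‖w‖ ≤ R) :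
    ‖v ^ 4 - w ^ 4 - 4 * w ^ 3 * (v - w)‖ ≤ 6 * R ^ 2 * ‖v - w‖ ^ 2 := by
  have h : v ^ 4 - w ^ 4 - 4 * w ^ 3 * (v - w)
      = (v ^ 2 + 2 * (v * w) + 3 * w ^ 2) * (v - w) ^ 2 := by ring
  have hR : 0 ≤ R := (norm_nonneg v).trans hv
  rw [h, norm_mul, norm_pow]
  gcongr
  calc ‖v ^ 2 + 2 * (v * w) + 3 * w ^ 2‖
      ≤ ‖v ^ 2 + 2 * (v * w)‖ + ‖3 * w ^ 2‖ := norm_add_le _ _
    _ ≤ ‖v ^ 2‖ + ‖2 * (v * w)‖ + ‖3 * w ^ 2‖ := by gcongr; exact norm_add_le _ _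
    _ = ‖v‖ ^ 2 + 2 * (‖v‖ * ‖w‖) + 3 * ‖w‖ ^ 2 := by
        rw [norm_mul, norm_mul, norm_mul, norm_pow, norm_pow]; simp
    _ ≤ R ^ 2 + 2 * (R * R) + 3 * R ^ 2 := by gcongr
    _ = 6 * R ^ 2 := by ring

lemma pow7_taylor (R : ℝ) (v w : ℂ) (hv : ‖v‖ ≤ R) (hw : ‖w‖ ≤ R) :
    ‖v ^ 7 - w ^ 7 - 7 * w ^ 6 * (v - w)‖ ≤ 21 * R ^ 5 * ‖v - w‖ ^ 2 := by
  have h : v ^ 7 - w ^ 7 - 7 * w ^ 6 * (v - w)
      = (∑ i ∈ Finset.range 6, ((i : ℂ) + 1) * (v ^ (5 - i) * w ^ i)) * (v - w) ^ 2 := by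
    simp only [Finset.sum_range_succ, Finset.sum_range_zero]
    norm_num
    ring
  have hR : 0 ≤ R := (norm_nonneg v).trans hv
  rw [h, norm_mul, norm_pow]
  gcongr
  calc ‖∑ i ∈ Finset.range 6, ((i : ℂ) + 1) * (v ^ (5 - i) * w ^ i)‖
      ≤ ∑ i ∈ Finset.range 6, ‖((i : ℂ) + 1) * (v ^ (5 - i) * w ^ i)‖ := norm_sum_le _ _
    _ ≤ ∑ i ∈ Finset.range 6, ((i : ℝ) + 1) * R ^ 5 := by
        apply Finset.sum_le_sum
        intro i hi
        have hi' : i ≤ 5 := by have := Finset.mem_range.mp hi; omega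
        rw [norm_mul, norm_mul, norm_pow, norm_pow]
        have h1 : ‖((i : ℂ) + 1)‖ = (i : ℝ) + 1 := by
          have : ((i : ℂ) + 1) = ((i + 1 : ℕ) : ℂ) := by push_cast; ring
          rw [this, Complex.norm_natCast]; push_cast; ring
        rw [h1]
        gcongr
        calc ‖v‖ ^ (5 - i) * ‖w‖ ^ i ≤ R ^ (5 - i) * R ^ i := by gcongr
          _ = R ^ 5 := by rw [← pow_add]; congr 1; omega
    _ = 21 * R ^ 5 := by
        simp only [Finset.sum_range_succ, Finset.sum_range_zero]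
        push_cast
        ring

/-! ### P5a -/

lemma f_lip (R : ℝ) (B B' v w : ℂ) (hv : ‖v‖ ≤ R) (hw : ‖w‖ ≤ R) :
    ‖(v ^ 4 + B' * v ^ 7) - (w ^ 4 + B * w ^ 7)‖
      ≤ (4 * R ^ 3 + 7 * ‖B‖ * R ^ 6) * ‖v - w‖ + ‖B' - B‖ * R ^ 7 := by
  have hR : 0 ≤ R := (norm_nonneg v).trans hv
  have h : (v ^ 4 + B' * v ^ 7) - (w ^ 4 + B * w ^ 7)
      = (v ^ 4 - w ^ 4) + B * (v ^ 7 - w ^ 7) + (B' - B) * v ^ 7 := by ring
  rw [h]
  calc ‖(v ^ 4 - w ^ 4) + B * (v ^ 7 - w ^ 7) + (B' - B) * v ^ 7‖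
      ≤ ‖(v ^ 4 - w ^ 4) + B * (v ^ 7 - w ^ 7)‖ + ‖(B' - B) * v ^ 7‖ := norm_add_le _ _
    _ ≤ ‖v ^ 4 - w ^ 4‖ + ‖B * (v ^ 7 - w ^ 7)‖ + ‖(B' - B) * v ^ 7‖ := by
        gcongr; exact norm_add_le _ _
    _ = ‖v ^ 4 - w ^ 4‖ + ‖B‖ * ‖v ^ 7 - w ^ 7‖ + ‖B' - B‖ * ‖v‖ ^ 7 := by
        rw [norm_mul, norm_mul, norm_pow]
    _ ≤ 4 * R ^ 3 * ‖v - w‖ + ‖B‖ * (7 * R ^ 6 * ‖v - w‖) + ‖B' - B‖ * R ^ 7 := by
        gcongr
        · exact pow4_lip R v w hv hw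
        · exact pow7_lip R v w hv hw
    _ = _ := by ring

lemma f_taylor (R : ℝ) (B B1 h v w X : ℂ) (hv : ‖v‖ ≤ R) (hw : ‖w‖ ≤ R) :
    ‖(v ^ 4 + (B + B1 * h) * v ^ 7)
        - ((w ^ 4 + B * w ^ 7) + h * ((4 * w ^ 3 + 7 * B * w ^ 6) * X + B1 * w ^ 7))‖
      ≤ (4 * R ^ 3 + 7 * ‖B‖ * R ^ 6) * ‖v - (w + h * X)‖
        + ((6 * R ^ 2 + ‖B‖ * (21 * R ^ 5)) * ‖v - w‖ ^ 2
          + ‖B1‖ * ‖h‖ * (7 * R ^ 6 * ‖v - w‖)) := by
  have hR : 0 ≤ R := (norm_nonneg v).trans hv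
  have e : (v ^ 4 + (B + B1 * h) * v ^ 7)
        - ((w ^ 4 + B * w ^ 7) + h * ((4 * w ^ 3 + 7 * B * w ^ 6) * X + B1 * w ^ 7))
      = (4 * w ^ 3 + 7 * B * w ^ 6) * (v - (w + h * X))
        + (v ^ 4 - w ^ 4 - 4 * w ^ 3 * (v - w)) + B * (v ^ 7 - w ^ 7 - 7 * w ^ 6 * (v - w))
        + (B1 * h) * (v ^ 7 - w ^ 7) := by ring
  rw [e]
  calc ‖(4 * w ^ 3 + 7 * B * w ^ 6) * (v - (w + h * X))
        + (v ^ 4 - w ^ 4 - 4 * w ^ 3 * (v - w)) + B * (v ^ 7 - w ^ 7 - 7 * w ^ 6 * (v - w))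
        + (B1 * h) * (v ^ 7 - w ^ 7)‖
      ≤ ‖(4 * w ^ 3 + 7 * B * w ^ 6) * (v - (w + h * X))
        + (v ^ 4 - w ^ 4 - 4 * w ^ 3 * (v - w)) + B * (v ^ 7 - w ^ 7 - 7 * w ^ 6 * (v - w))‖
        + ‖(B1 * h) * (v ^ 7 - w ^ 7)‖ := norm_add_le _ _
    _ ≤ ‖(4 * w ^ 3 + 7 * B * w ^ 6) * (v - (w + h * X))
        + (v ^ 4 - w ^ 4 - 4 * w ^ 3 * (v - w))‖ + ‖B * (v ^ 7 - w ^ 7 - 7 * w ^ 6 * (v - w))‖
        + ‖(B1 * h) * (v ^ 7 - w ^ 7)‖ := by gcongr; exact norm_add_le _ _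
    _ ≤ ‖(4 * w ^ 3 + 7 * B * w ^ 6) * (v - (w + h * X))‖
        + ‖v ^ 4 - w ^ 4 - 4 * w ^ 3 * (v - w)‖ + ‖B * (v ^ 7 - w ^ 7 - 7 * w ^ 6 * (v - w))‖
        + ‖(B1 * h) * (v ^ 7 - w ^ 7)‖ := by gcongr; exact norm_add_le _ _
    _ = ‖4 * w ^ 3 + 7 * B * w ^ 6‖ * ‖v - (w + h * X)‖
        + ‖v ^ 4 - w ^ 4 - 4 * w ^ 3 * (v - w)‖ + ‖B‖ * ‖v ^ 7 - w ^ 7 - 7 * w ^ 6 * (v - w)‖
        + ‖B1‖ * ‖h‖ * ‖v ^ 7 - w ^ 7‖ := by
        rw [norm_mul, norm_mul, norm_mul (B1 * h), norm_mul B1]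
    _ ≤ (4 * R ^ 3 + 7 * ‖B‖ * R ^ 6) * ‖v - (w + h * X)‖
        + 6 * R ^ 2 * ‖v - w‖ ^ 2 + ‖B‖ * (21 * R ^ 5 * ‖v - w‖ ^ 2)
        + ‖B1‖ * ‖h‖ * (7 * R ^ 6 * ‖v - w‖) := by
        gcongr
        · calc ‖4 * w ^ 3 + 7 * B * w ^ 6‖ ≤ ‖4 * w ^ 3‖ + ‖7 * B * w ^ 6‖ := norm_add_le _ _
            _ = 4 * ‖w‖ ^ 3 + 7 * ‖B‖ * ‖w‖ ^ 6 := by
                rw [norm_mul, norm_mul, norm_mul, norm_pow, norm_pow]; simp
            _ ≤ _ := by gcongr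
        · exact pow4_taylor R v w hv hw
        · exact pow7_taylor R v w hv hw
        · exact pow7_lip R v w hv hw
    _ = _ := by ring

/-- Core estimate: a second order expansion of the family at an interior point. -/
lemma hol_core (hE : P1_exists) (hS : P1_stab) (hZ : P1_zero)
    (t0 t1 R : ℝ) (A0 A1 Q0 Q1 B0 B1 : ℂ) (w χ : ℂ → ℝ → ℂ)
    (ht0 : 0 ≤ t0) (ht : t0 < t1)
    (hsol : ∀ δ : ℂ, ‖δ‖ ≤ 1 →
      SolOn (fun _ v => v ^ 4 + (B0 + B1 * δ) * v ^ 7) t0 t1 (w δ) (χ δ))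
    (hini : ∀ δ : ℂ, ‖δ‖ ≤ 1 → w δ t0 = A0 + A1 * δ ∧ χ δ t0 = Q0 + Q1 * δ)
    (hbd : ∀ δ : ℂ, ‖δ‖ ≤ 1 → ∀ t ∈ Icc t0 t1, ‖w δ t‖ ≤ R) (δ : ℂ) (hδ : ‖δ‖ ≤ 1) :
    ∃ (X Y : ℝ → ℂ) (C : ℝ), ∀ h : ℂ, ‖δ + h‖ ≤ 1 → ∀ t ∈ Icc t0 t1,
      ‖w (δ + h) t - w δ t - h * X t‖ ≤ C * ‖h‖ ^ 2 ∧
      ‖χ (δ + h) t - χ δ t - h * Y t‖ ≤ C * ‖h‖ ^ 2 := by
  have hR : 0 ≤ R := (norm_nonneg _).trans (hbd δ hδ t0 ⟨le_rfl, ht.le⟩)
  set B : ℂ := B0 + B1 * δ with hB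
  -- the linear equation
  let wt : ℝ → ℂ := fun s => w δ (max t0 (min s t1))
  have hmem : ∀ s, max t0 (min s t1) ∈ Icc t0 t1 := fun s =>
    ⟨le_max_left _ _, max_le ht.le (min_le_right _ _)⟩
  have hwt : Continuous wt := by
    have h1 : ContinuousOn (w δ) (Icc t0 t1) := (hsol δ hδ).cv
    have h2 : Continuous (fun s : ℝ => max t0 (min s t1)) := by fun_prop
    exact h1.comp_continuous h2 hmem
  have hwtb : ∀ s, ‖wt s‖ ≤ R := fun s => hbd δ hδ _ (hmem s)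
  have hwteq : ∀ s ∈ Icc t0 t1, wt s = w δ s := by
    intro s hs
    simp only [wt]
    rw [min_eq_left hs.2, max_eq_right hs.1]
  let c : ℝ → ℂ := fun s => 4 * wt s ^ 3 + 7 * B * wt s ^ 6
  have hc : Continuous c := by fun_prop
  set K : ℝ := 4 * R ^ 3 + 7 * ‖B‖ * R ^ 6 with hK
  have hK0 : 0 ≤ K := by positivity
  have hcb : ∀ s, ‖c s‖ ≤ K := by
    intro s
    calc ‖4 * wt s ^ 3 + 7 * B * wt s ^ 6‖ ≤ ‖4 * wt s ^ 3‖ + ‖7 * B * wt s ^ 6‖ := norm_add_le _ _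
      _ = 4 * ‖wt s‖ ^ 3 + 7 * ‖B‖ * ‖wt s‖ ^ 6 := by
          rw [norm_mul, norm_mul, norm_mul, norm_pow, norm_pow]; simp
      _ ≤ K := by rw [hK]; have := hwtb s; gcongr
  have h00 : t0 = 0 → A1 = Q1 := by
    intro h0
    subst h0
    have z0 := hZ ℂ _ t1 _ _ ht (hsol 0 (by simp))
    have z1 := hZ ℂ _ t1 _ _ ht (hsol 1 (by simp))
    rw [(hini 0 (by simp)).1, (hini 0 (by simp)).2] at z0
    rw [(hini 1 (by simp)).1, (hini 1 (by simp)).2] at z1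
    have e0 : A0 = Q0 := by simpa using z0
    have e1 : A0 + A1 = Q0 + Q1 := by simpa using z1
    rw [e0] at e1
    exact add_left_cancel e1
  obtain ⟨X, Y, hXY, hX0, hY0⟩ := hE ℂ (fun s z => c s * z + B1 * wt s ^ 7) ⟨K, hK0⟩ t0 t1 A1 Q1
    ht0 ht (by fun_prop) (by
      intro s
      apply LipschitzWith.of_dist_le_mul
      intro z z'
      rw [dist_eq_norm, dist_eq_norm]
      have : c s * z + B1 * wt s ^ 7 - (c s * z' + B1 * wt s ^ 7) = c s * (z - z') := by ring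
      rw [this, norm_mul]
      exact mul_le_mul_of_nonneg_right (hcb s) (norm_nonneg _)) h00
  obtain ⟨C, hC, hstab⟩ := hS K t0 t1 hK0 ht0 ht
  -- first order
  set C1 : ℝ := C * (‖A1‖ + ‖Q1‖ + ‖B1‖ * R ^ 7) with hC1
  have hC10 : 0 ≤ C1 := by positivity
  have first : ∀ h : ℂ, ‖δ + h‖ ≤ 1 → ∀ t ∈ Icc t0 t1, ‖w (δ + h) t - w δ t‖ ≤ C1 * ‖h‖ := by
    intro h hh t htt
    have e1 := (hini (δ + h) hh)
    have e2 := (hini δ hδ)
    have key := hstab ℂ _ _ (w (δ + h)) (χ (δ + h)) (w δ) (χ δ) (‖B1 * h‖ * R ^ 7)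
      (hsol (δ + h) hh) (hsol δ hδ) (by positivity) (by
        intro s hs
        have := f_lip R (B0 + B1 * δ) (B0 + B1 * (δ + h)) (w (δ + h) s) (w δ s)
          (hbd _ hh s hs) (hbd _ hδ s hs)
        have e3 : B0 + B1 * (δ + h) - (B0 + B1 * δ) = B1 * h := by ring
        rw [e3] at this
        exact this) t htt
    have e4 : w (δ + h) t0 - w δ t0 = A1 * h := by rw [e1.1, e2.1]; ring
    have e5 : χ (δ + h) t0 - χ δ t0 = Q1 * h := by rw [e1.2, e2.2]; ring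
    rw [e4, e5] at key
    calc ‖w (δ + h) t - w δ t‖ ≤ C * (‖A1 * h‖ + ‖Q1 * h‖ + ‖B1 * h‖ * R ^ 7) := key.1
      _ = C1 * ‖h‖ := by rw [hC1, norm_mul, norm_mul, norm_mul]; ring
  -- second order
  set C2 : ℝ := C * ((6 * R ^ 2 + ‖B‖ * (21 * R ^ 5)) * C1 ^ 2 + ‖B1‖ * (7 * R ^ 6 * C1)) with hC2
  refine ⟨X, Y, C2, ?_⟩
  intro h hh t htt
  have hsol2 : SolOn (fun s (_ : ℂ) => (w δ s ^ 4 + B * w δ s ^ 7)
      + h * (c s * X s + B1 * wt s ^ 7)) t0 t1 (fun s => w δ s + h * X s)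
      (fun s => χ δ s + h * Y s) := by
    constructor
    · exact (hsol δ hδ).cv.add (continuousOn_const.mul hXY.cv)
    · exact (hsol δ hδ).cq.add (continuousOn_const.mul hXY.cq)
    · intro s hs
      have a1 := (hsol δ hδ).dv s hs
      have a2 := (hXY.dv s hs).const_mul h
      have a3 := a1.add a2
      refine a3.congr_of_eventuallyEq ?_
      filter_upwards with r
      simp only [Pi.add_apply, smul_add, Complex.real_smul]
      ring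
    · intro s hs
      have a1 := (hsol δ hδ).dq s hs
      have a2 := (hXY.dq s hs).const_mul h
      have a3 := a1.add a2
      have e : -(s • ((w δ s ^ 4 + B * w δ s ^ 7) + h * (c s * X s + B1 * wt s ^ 7)))
          = -(s • (w δ s ^ 4 + (B0 + B1 * δ) * w δ s ^ 7)) + h * -(s • (c s * X s + B1 * wt s ^ 7)) := by
        rw [← hB]
        simp only [Complex.real_smul]
        ring
      rw [e]
      exact a3
  have key := hstab ℂ _ _ (w (δ + h)) (χ (δ + h)) _ _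
      (((6 * R ^ 2 + ‖B‖ * (21 * R ^ 5)) * C1 ^ 2 + ‖B1‖ * (7 * R ^ 6 * C1)) * ‖h‖ ^ 2)
      (hsol (δ + h) hh) hsol2 (by positivity) (by
        intro s hs
        have h1 := f_taylor R B B1 h (w (δ + h) s) (w δ s) (X s) (hbd _ hh s hs) (hbd _ hδ s hs)
        have h2 := first h hh s hs
        have e1 : B0 + B1 * (δ + h) = B + B1 * h := by rw [hB]; ring
        rw [e1]
        have e2 : c s * X s + B1 * wt s ^ 7
            = (4 * w δ s ^ 3 + 7 * B * w δ s ^ 6) * X s + B1 * w δ s ^ 7 := by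
          simp only [c]; rw [hwteq s hs]
        rw [e2]
        refine h1.trans ?_
        have hKK : K = 4 * R ^ 3 + 7 * ‖B‖ * R ^ 6 := rfl
        rw [hKK]
        gcongr
        calc (6 * R ^ 2 + ‖B‖ * (21 * R ^ 5)) * ‖w (δ + h) s - w δ s‖ ^ 2
              + ‖B1‖ * ‖h‖ * (7 * R ^ 6 * ‖w (δ + h) s - w δ s‖)
            ≤ (6 * R ^ 2 + ‖B‖ * (21 * R ^ 5)) * (C1 * ‖h‖) ^ 2
              + ‖B1‖ * ‖h‖ * (7 * R ^ 6 * (C1 * ‖h‖)) := by gcongr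
          _ = _ := by ring) t htt
  have e4 : w (δ + h) t0 - (w δ t0 + h * X t0) = 0 := by
    rw [(hini (δ + h) hh).1, (hini δ hδ).1, hX0]; ring
  have e5 : χ (δ + h) t0 - (χ δ t0 + h * Y t0) = 0 := by
    rw [(hini (δ + h) hh).2, (hini δ hδ).2, hY0]; ring
  rw [e4, e5] at key
  simp only [norm_zero, zero_add] at key
  constructor
  · calc ‖w (δ + h) t - w δ t - h * X t‖ = ‖w (δ + h) t - (w δ t + h * X t)‖ := by
          congr 1; ring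
      _ ≤ _ := key.1
      _ = C2 * ‖h‖ ^ 2 := by rw [hC2]; ring
  · calc ‖χ (δ + h) t - χ δ t - h * Y t‖ = ‖χ (δ + h) t - (χ δ t + h * Y t)‖ := by
          congr 1; ring
      _ ≤ _ := key.2
      _ = C2 * ‖h‖ ^ 2 := by rw [hC2]; ring

lemma diff_of_quad (f : ℂ → ℂ) (δ X : ℂ) (C : ℝ) (hδ : δ ∈ Metric.ball (0 : ℂ) 1)
    (h : ∀ h : ℂ, ‖δ + h‖ ≤ 1 → ‖f (δ + h) - f δ - h * X‖ ≤ C * ‖h‖ ^ 2) :
    DifferentiableAt ℂ f δ := by
  have hd : HasDerivAt f X δ := by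
    rw [hasDerivAt_iff_isLittleO_nhds_zero]
    have hO : (fun h : ℂ => f (δ + h) - f δ - h • X) =O[nhds 0] fun h : ℂ => ‖h‖ ^ 2 := by
      apply Asymptotics.IsBigO.of_bound C
      have hnhds : ∀ᶠ h : ℂ in nhds 0, ‖δ + h‖ < 1 := by
        have hcont : Continuous fun h : ℂ => ‖δ + h‖ := by fun_prop
        have : (fun h : ℂ => ‖δ + h‖) 0 < 1 := by simpa using hδ
        exact hcont.continuousAt.eventually (gt_mem_nhds this) |>.mono fun _ h => h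
      filter_upwards [hnhds] with k hk
      rw [smul_eq_mul]
      refine (h k hk.le).trans ?_
      simp
    refine hO.trans_isLittleO ?_
    have : (fun h : ℂ => ‖h‖ ^ 2) =o[nhds 0] fun h : ℂ => ‖h‖ ^ 1 := by
      have h1 : (fun h : ℂ => h ^ 2) =o[nhds (0 : ℂ)] fun h : ℂ => h ^ 1 :=
        Asymptotics.isLittleO_pow_pow (by norm_num)
      have := h1.norm_norm
      simpa [norm_pow] using this
    have h2 : (fun h : ℂ => ‖h‖ ^ 1) = fun h : ℂ => ‖h‖ := by ext; simp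
    rw [h2] at this
    exact (Asymptotics.isLittleO_norm_right).mp this
  exact hd.differentiableAt

/-- **P5a**. -/
theorem p5_hol (hE : P1_exists) (hS : P1_stab) (hZ : P1_zero) : P5_hol := by
  intro t0 t1 R A0 A1 Q0 Q1 B0 B1 w χ ht0 ht hsol hini hbd t htt
  constructor
  · intro δ hδ
    have hδ' : ‖δ‖ ≤ 1 := by simpa using (mem_ball_zero_iff.mp hδ).le
    obtain ⟨X, Y, C, hC⟩ := hol_core hE hS hZ t0 t1 R A0 A1 Q0 Q1 B0 B1 w χ ht0 ht hsol hini hbd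
      δ hδ'
    exact (diff_of_quad (fun δ => w δ t) δ (X t) C hδ
      (fun h hh => (hC h hh t htt).1)).differentiableWithinAt
  · intro δ hδ
    have hδ' : ‖δ‖ ≤ 1 := by simpa using (mem_ball_zero_iff.mp hδ).le
    obtain ⟨X, Y, C, hC⟩ := hol_core hE hS hZ t0 t1 R A0 A1 Q0 Q1 B0 B1 w χ ht0 ht hsol hini hbd
      δ hδ'
    exact (diff_of_quad (fun δ => χ δ t) δ (Y t) C hδ
      (fun h hh => (hC h hh t htt).2)).differentiableWithinAt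

/-! ### P5b -/

/-- **P5b**. -/
theorem p5_real (hS : P1_stab) : P5_real := by
  intro t0 t1 Bv v q ht0 ht hsol hv0 hq0
  -- conjugate solution
  have hconj : SolOn (fun _ v => v ^ 4 + (Bv : ℂ) * v ^ 7) t0 t1
      (fun t => (starRingEnd ℂ) (v t)) (fun t => (starRingEnd ℂ) (q t)) := by
    constructor
    · exact Complex.continuous_conj.comp_continuousOn hsol.cv
    · exact Complex.continuous_conj.comp_continuousOn hsol.cq
    · intro s hs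
      have a1 := (Complex.conjCLE.toContinuousLinearMap.hasFDerivAt).comp_hasDerivAt s
        (hsol.dv s hs)
      refine a1.congr_of_eventuallyEq ?_
      filter_upwards with r
      simp [Complex.real_smul]
    · intro s hs
      have a1 := (Complex.conjCLE.toContinuousLinearMap.hasFDerivAt).comp_hasDerivAt s
        (hsol.dq s hs)
      have e : -(s • ((starRingEnd ℂ) (v s) ^ 4 + (Bv : ℂ) * (starRingEnd ℂ) (v s) ^ 7))
          = (starRingEnd ℂ) (-(s • (v s ^ 4 + (Bv : ℂ) * v s ^ 7))) := by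
        simp [Complex.real_smul]
      rw [e]
      exact a1
  obtain ⟨R, hR⟩ := isCompact_Icc.exists_bound_of_continuousOn hsol.cv
  have hR0 : 0 ≤ R := (norm_nonneg _).trans (hR t0 ⟨le_rfl, ht.le⟩)
  obtain ⟨C, hC, hstab⟩ := hS (4 * R ^ 3 + 7 * ‖(Bv : ℂ)‖ * R ^ 6) t0 t1 (by positivity) ht0 ht
  have key := hstab ℂ _ _ v q _ _ 0 hsol hconj le_rfl (by
    intro s hs
    have := f_lip R (Bv : ℂ) (Bv : ℂ) (v s) ((starRingEnd ℂ) (v s)) (hR s hs)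
      (by rw [RCLike.norm_conj]; exact hR s hs)
    simpa using this)
  have hv0' : v t0 - (starRingEnd ℂ) (v t0) = 0 := by
    rw [sub_eq_zero]; exact (Complex.conj_eq_iff_im.mpr hv0).symm
  have hq0' : q t0 - (starRingEnd ℂ) (q t0) = 0 := by
    rw [sub_eq_zero]; exact (Complex.conj_eq_iff_im.mpr hq0).symm
  simp only [hv0', hq0', norm_zero, add_zero, mul_zero] at key
  have him : ∀ t ∈ Icc t0 t1, (v t).im = 0 ∧ (q t).im = 0 := by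
    intro t htt
    obtain ⟨k1, k2⟩ := key t htt
    have e1 : v t - (starRingEnd ℂ) (v t) = 0 := norm_le_zero_iff.mp k1
    have e2 : q t - (starRingEnd ℂ) (q t) = 0 := norm_le_zero_iff.mp k2
    exact ⟨Complex.conj_eq_iff_im.mp (sub_eq_zero.mp e1).symm,
      Complex.conj_eq_iff_im.mp (sub_eq_zero.mp e2).symm⟩
  refine ⟨him, ?_⟩
  constructor
  · exact Complex.continuous_re.comp_continuousOn hsol.cv
  · exact Complex.continuous_re.comp_continuousOn hsol.cq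
  · intro s hs
    have a1 := (Complex.reCLM.hasFDerivAt).comp_hasDerivAt s (hsol.dv s hs)
    refine a1.congr_of_eventuallyEq ?_
    filter_upwards with r
    simp [Complex.real_smul]
  · intro s hs
    have a1 := (Complex.reCLM.hasFDerivAt).comp_hasDerivAt s (hsol.dq s hs)
    have hreal : v s = (((v s).re : ℝ) : ℂ) := by
      apply Complex.ext
      · simp
      · simpa using (him s ⟨hs.1.le, hs.2.le⟩).1
    have e : -(s • ((v s).re ^ 4 + Bv * (v s).re ^ 7))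
        = Complex.reCLM (-(s • (v s ^ 4 + (Bv : ℂ) * v s ^ 7))) := by
      have : v s ^ 4 + (Bv : ℂ) * v s ^ 7 = (((v s).re ^ 4 + Bv * (v s).re ^ 7 : ℝ) : ℂ) := by
        conv_lhs => rw [hreal]
        push_cast; rfl
      rw [this]
      simp only [Complex.reCLM_apply, Complex.neg_re, Complex.real_smul, ← Complex.ofReal_mul,
        Complex.ofReal_re, smul_eq_mul]
    rw [e]
    exact a1

/-! ### P5c -/

lemma clamp_lip (R a b : ℝ) : |max (-R) (min R a) - max (-R) (min R b)| ≤ |a - b| := by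
  calc |max (-R) (min R a) - max (-R) (min R b)| ≤ max |(-R) - (-R)| |min R a - min R b| :=
        abs_max_sub_max_le_max _ _ _ _
    _ = |min R a - min R b| := by simp
    _ ≤ max |R - R| |a - b| := abs_min_sub_min_le_max _ _ _ _
    _ = |a - b| := by simp

lemma clamp_abs (R a : ℝ) (hR : 0 < R) : |max (-R) (min R a)| ≤ R := by
  rw [abs_le]
  exact ⟨le_max_left _ _, max_le (by linarith) (min_le_left _ _)⟩

lemma sq_lip (R : ℝ) (z w : ℂ) : ‖sq R z - sq R w‖ ≤ ‖z - w‖ := by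
  rw [Complex.norm_def, Complex.norm_def]
  apply Real.sqrt_le_sqrt
  rw [Complex.normSq_apply, Complex.normSq_apply]
  have h1 := clamp_lip R z.re w.re
  have h2 := clamp_lip R z.im w.im
  have h3 := mul_self_le_mul_self (abs_nonneg _) h1
  have h4 := mul_self_le_mul_self (abs_nonneg _) h2
  rw [abs_mul_abs_self, abs_mul_abs_self] at h3 h4
  simp only [Pool.Agent.W2helper59.LN.sq, Complex.sub_re, Complex.sub_im]
  linarith

lemma sq_bound (R : ℝ) (z : ℂ) (hR : 0 < R) : ‖sq R z‖ ≤ 2 * R := by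
  have h1 := clamp_abs R z.re hR
  have h2 := clamp_abs R z.im hR
  calc ‖sq R z‖ ≤ |(sq R z).re| + |(sq R z).im| := Complex.norm_le_abs_re_add_abs_im _
    _ ≤ R + R := add_le_add h1 h2
    _ = 2 * R := by ring

/-- **P5c**. -/
theorem p5_exists (hE : P1_exists) : P5_exists := by
  intro t0 t1 R v0 q0 Bv ht0 ht hR h00
  have hK : (0:ℝ) ≤ 4 * (2 * R) ^ 3 + 7 * ‖Bv‖ * (2 * R) ^ 6 := by positivity
  have hlip : LipschitzWith ⟨4 * (2 * R) ^ 3 + 7 * ‖Bv‖ * (2 * R) ^ 6, hK⟩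
      (fun z : ℂ => (sq R z) ^ 4 + Bv * (sq R z) ^ 7) := by
    apply LipschitzWith.of_dist_le_mul
    intro z z'
    rw [dist_eq_norm, dist_eq_norm]
    have := f_lip (2 * R) Bv Bv (sq R z) (sq R z') (sq_bound R z hR) (sq_bound R z' hR)
    simp only [sub_self, norm_zero, zero_mul, add_zero] at this
    refine this.trans ?_
    exact mul_le_mul_of_nonneg_left (sq_lip R z z') hK
  exact hE ℂ (fun _ z => (sq R z) ^ 4 + Bv * (sq R z) ^ 7) _ t0 t1 v0 q0 ht0 ht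
    (hlip.continuous.comp continuous_snd) (fun _ => hlip) h00

end Pool.Agent.W2helper71.LN
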