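import Mathlib
import Pool.Agent.W2helper59.LN.Stm
import Pool.Agent.W2helper59.LN.Eng

/-!
# S03669, piece S5: the chain of validated steps
-/

set_option autoImplicit false

namespace Pool.Agent.W2helper71.LN

open Set Pool.Agent.W2helper59.LN

theorem solOn_mono {E : Type*} [NormedAddCommGroup E] [NormedSpace ℝ E]
    {F : ℝ → E → E} {t0 t1 a b : ℝ} {v q : ℝ → E} (h : SolOn F t0 t1 v q)
    (ha : t0 ≤ a) (hb : b ≤ t1) : SolOn F a b v q where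
  cv := h.cv.mono (Icc_subset_Icc ha hb)
  cq := h.cq.mono (Icc_subset_Icc ha hb)
  dv := fun t ht => h.dv t (Ioo_subset_Ioo ha hb ht)
  dq := fun t ht => h.dq t (Ioo_subset_Ioo ha hb ht)

theorem stepOK_geom {hd : Hdr} {s : StepD} (h : stepOK hd s = true) :
    1 ≤ s.H ∧ s.H ≤ s.C := by
  unfold stepOK at h
  simp only [Bool.and_eq_true, Nat.ble_eq] at h
  tauto

theorem step_a_nonneg {hd : Hdr} {s : StepD} (h : stepOK hd s = true) : (0 : ℝ) ≤ (s.a : ℝ) := by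
  obtain ⟨_, h2⟩ := stepOK_geom h
  have : (0 : ℚ) ≤ s.a := by
    unfold StepD.a
    apply div_nonneg
    · have : (s.H : ℚ) ≤ s.C := by exact_mod_cast h2
      linarith
    · positivity
  exact_mod_cast this

theorem step_a_lt {hd : Hdr} {s : StepD} (h : stepOK hd s = true) :
    (s.a : ℝ) < (s.bb : ℝ) := by
  obtain ⟨h1, _⟩ := stepOK_geom h
  have : s.a < s.bb := by
    unfold StepD.a StepD.bb
    have h1' : (1 : ℚ) ≤ s.H := by exact_mod_cast h1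
    apply div_lt_div_of_pos_right
    · linarith
    · positivity
  exact_mod_cast this

theorem chainAux_head {hd : Hdr} {s : StepD} {l : List StepD} (h : chainAux hd s l = true) :
    stepOK hd s = true := by
  cases l with
  | nil => simpa [chainAux] using h
  | cons s' l' =>
    simp only [chainAux, Bool.and_eq_true] at h
    exact h.1.1

theorem chain_geom (hJ : S4_jump) (hd : Hdr) :
    ∀ (l : List StepD) (s : StepD), chainAux hd s l = true →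
      (s.a : ℝ) < ((lastS s l).bb : ℝ) ∧ (s.a : ℝ) ≤ ((lastS s l).a : ℝ) ∧
        (s.bb : ℝ) ≤ ((lastS s l).bb : ℝ) := by
  intro l
  induction l with
  | nil =>
    intro s h
    simp only [chainAux] at h
    simp only [lastS]
    exact ⟨step_a_lt h, le_refl _, le_refl _⟩
  | cons s' l' ih =>
    intro s h
    simp only [chainAux, Bool.and_eq_true] at h
    obtain ⟨⟨h1, h2⟩, h3⟩ := h
    have h3' := chainAux_head h3
    have hj := (hJ.1 hd s s' 0 0 0 (by simp) h1 h3' h2).1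
    have hj' : (s.bb : ℝ) = (s'.a : ℝ) := by exact_mod_cast hj
    obtain ⟨i1, i2, i3⟩ := ih s' h3
    have := step_a_lt h1
    simp only [lastS]
    refine ⟨by linarith, by linarith, by linarith⟩

theorem chain_aux (h4 : S4_step) (hJ : S4_jump) (hd : Hdr) (Bv : ℝ) (hB : BAdm hd Bv)
    (δ : ℂ) (hδ : ‖δ‖ ≤ 1) :
    ∀ (l : List StepD) (s : StepD), chainAux hd s l = true → ∀ (v q : ℝ → ℂ),
      SolOn (fun _ z => fCut hd Bv δ z) (s.a : ℝ) ((lastS s l).bb : ℝ) v q →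
      NB (sc s.g : ℝ) (sc s.mu0 : ℝ) (s.a : ℝ) (v (s.a : ℝ)) (wS hd s δ (s.a : ℝ))
        (q (s.a : ℝ)) (rS hd s δ (s.a : ℝ)) →
      (∀ t ∈ Icc (s.a : ℝ) ((lastS s l).bb : ℝ), ‖v t‖ ≤ 8 ∧ -1 ≤ (v t).re) ∧
      (∀ t ∈ Icc ((lastS s l).a : ℝ) ((lastS s l).bb : ℝ),
          NB (sc (lastS s l).g : ℝ) (sc (lastS s l).mu1 : ℝ) t (v t)
            (wS hd (lastS s l) δ t) (q t) (rS hd (lastS s l) δ t)) := by
  intro l
  induction l with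
  | nil =>
    intro s h v q hv hN
    simp only [chainAux] at h
    simp only [lastS] at hv ⊢
    have := (h4 hd s Bv hB h).1 δ v q hδ hv hN
    exact ⟨fun t ht => ⟨(this t ht).2.2.1, (this t ht).2.2.2⟩, fun t ht => (this t ht).1⟩
  | cons s' l' ih =>
    intro s h v q hv hN
    have hg := chain_geom hJ hd (s' :: l') s h
    simp only [chainAux, Bool.and_eq_true] at h
    obtain ⟨⟨h1, h2⟩, h3⟩ := h
    have h3' := chainAux_head h3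
    have hj := (hJ.1 hd s s' 0 0 0 (by simp) h1 h3' h2).1
    have hj' : (s.bb : ℝ) = (s'.a : ℝ) := by exact_mod_cast hj
    have hab := step_a_lt h1
    simp only [lastS] at hv hg ⊢
    have hv1 : SolOn (fun _ z => fCut hd Bv δ z) (s.a : ℝ) (s.bb : ℝ) v q :=
      solOn_mono hv le_rfl hg.2.2
    have hv2 : SolOn (fun _ z => fCut hd Bv δ z) (s'.a : ℝ) ((lastS s' l').bb : ℝ) v q :=
      solOn_mono hv (by linarith) le_rfl
    have k1 := (h4 hd s Bv hB h1).1 δ v q hδ hv1 hN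
    have k2 := (k1 (s.bb : ℝ) ⟨hab.le, le_rfl⟩).1
    have k3 := (hJ.1 hd s s' δ (v (s.bb : ℝ)) (q (s.bb : ℝ)) hδ h1 h3' h2).2.1 k2
    rw [hj'] at k3
    obtain ⟨i1, i2⟩ := ih s' h3 v q hv2 k3
    refine ⟨fun t ht => ?_, i2⟩
    rcases le_total t (s.bb : ℝ) with h | h
    · have := k1 t ⟨ht.1, h⟩
      exact ⟨this.2.2.1, this.2.2.2⟩
    · exact i1 t ⟨by linarith, ht.2⟩

theorem pair_aux (h4 : S4_step) (hJ : S4_jump) (hd : Hdr) (Bv Bv' : ℝ) (hB : BAdm hd Bv)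
    (hB' : BAdm hd Bv') (δ : ℂ) (hδ : ‖δ‖ ≤ 1) (D : ℝ) (hD0 : 0 ≤ D) (hD : |Bv - Bv'| ≤ D) :
    ∀ (l : List StepD) (s : StepD), chainAux hd s l = true → ∀ (v q v' q' : ℝ → ℂ),
      SolOn (fun _ z => fCut hd Bv δ z) (s.a : ℝ) ((lastS s l).bb : ℝ) v q →
      SolOn (fun _ z => fCut hd Bv' δ z) (s.a : ℝ) ((lastS s l).bb : ℝ) v' q' →
      NB (sc s.g : ℝ) (sc s.mu0 : ℝ) (s.a : ℝ) (v (s.a : ℝ)) (wS hd s δ (s.a : ℝ))
        (q (s.a : ℝ)) (rS hd s δ (s.a : ℝ)) →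
      NB (sc s.g : ℝ) (sc s.mu0 : ℝ) (s.a : ℝ) (v' (s.a : ℝ)) (wS hd s δ (s.a : ℝ))
        (q' (s.a : ℝ)) (rS hd s δ (s.a : ℝ)) →
      NB (sc s.g : ℝ) ((sc s.nu0 : ℝ) * D) (s.a : ℝ) (v (s.a : ℝ)) (v' (s.a : ℝ))
        (q (s.a : ℝ)) (q' (s.a : ℝ)) →
      ∀ t ∈ Icc ((lastS s l).a : ℝ) ((lastS s l).bb : ℝ),
          NB (sc (lastS s l).g : ℝ) ((sc (lastS s l).nu1 : ℝ) * D) t (v t) (v' t) (q t)
            (q' t) := by
  intro l
  induction l with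
  | nil =>
    intro s h v q v' q' hv hv' hN hN' hNN
    simp only [chainAux] at h
    simp only [lastS] at hv hv' ⊢
    have a1 := (h4 hd s Bv hB h).1 δ v q hδ hv hN
    have a2 := (h4 hd s Bv' hB' h).1 δ v' q' hδ hv' hN'
    exact (h4 hd s Bv hB h).2 Bv' δ v q v' q' D hB' hδ hD hv hv'
      (fun t ht => ⟨(a1 t ht).2.1, (a2 t ht).2.1⟩) hNN
  | cons s' l' ih =>
    intro s h v q v' q' hv hv' hN hN' hNN
    have hg := chain_geom hJ hd (s' :: l') s h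
    simp only [chainAux, Bool.and_eq_true] at h
    obtain ⟨⟨h1, h2⟩, h3⟩ := h
    have h3' := chainAux_head h3
    have hj := (hJ.1 hd s s' 0 0 0 (by simp) h1 h3' h2).1
    have hj' : (s.bb : ℝ) = (s'.a : ℝ) := by exact_mod_cast hj
    have hab := step_a_lt h1
    simp only [lastS] at hv hv' hg ⊢
    have hv1 : SolOn (fun _ z => fCut hd Bv δ z) (s.a : ℝ) (s.bb : ℝ) v q :=
      solOn_mono hv le_rfl hg.2.2
    have hv2 : SolOn (fun _ z => fCut hd Bv δ z) (s'.a : ℝ) ((lastS s' l').bb : ℝ) v q :=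
      solOn_mono hv (by linarith) le_rfl
    have hv1' : SolOn (fun _ z => fCut hd Bv' δ z) (s.a : ℝ) (s.bb : ℝ) v' q' :=
      solOn_mono hv' le_rfl hg.2.2
    have hv2' : SolOn (fun _ z => fCut hd Bv' δ z) (s'.a : ℝ) ((lastS s' l').bb : ℝ) v' q' :=
      solOn_mono hv' (by linarith) le_rfl
    have k1 := (h4 hd s Bv hB h1).1 δ v q hδ hv1 hN
    have k1' := (h4 hd s Bv' hB' h1).1 δ v' q' hδ hv1' hN'
    have k2 := (k1 (s.bb : ℝ) ⟨hab.le, le_rfl⟩).1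
    have k2' := (k1' (s.bb : ℝ) ⟨hab.le, le_rfl⟩).1
    have k3 := (hJ.1 hd s s' δ (v (s.bb : ℝ)) (q (s.bb : ℝ)) hδ h1 h3' h2).2.1 k2
    have k3' := (hJ.1 hd s s' δ (v' (s.bb : ℝ)) (q' (s.bb : ℝ)) hδ h1 h3' h2).2.1 k2'
    have k4 := (h4 hd s Bv hB h1).2 Bv' δ v q v' q' D hB' hδ hD hv1 hv1'
      (fun t ht => ⟨(k1 t ht).2.1, (k1' t ht).2.1⟩) hNN (s.bb : ℝ) ⟨hab.le, le_rfl⟩
    have k5 := (hJ.1 hd s s' δ (v (s.bb : ℝ)) (q (s.bb : ℝ)) hδ h1 h3' h2).2.2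
      (v' (s.bb : ℝ)) (q' (s.bb : ℝ)) D hD0 k4
    rw [hj'] at k3 k3' k5
    exact ih s' h3 v q v' q' hv2 hv2' k3 k3' k5

theorem sq_eq_self {R : ℝ} {z : ℂ} (h : ‖z‖ ≤ R) : W2helper59.LN.sq R z = z := by
  have h1 := (abs_le.1 ((Complex.abs_re_le_norm z).trans h))
  have h2 := (abs_le.1 ((Complex.abs_im_le_norm z).trans h))
  apply Complex.ext
  · simp only [W2helper59.LN.sq]
    rw [min_eq_right h1.2, max_eq_right h1.1]
  · simp only [W2helper59.LN.sq]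
    rw [min_eq_right h2.2, max_eq_right h2.1]

theorem s5_chain (h4 : S4_step) (hJ : S4_jump) (hE : P5_exists) (hH : P5_hol) (hR : P5_real) :
    S5_chain := by
  intro hd s l hc
  simp only [chainOK, Bool.and_eq_true] at hc
  obtain ⟨hst, hch⟩ := hc
  have hs := chainAux_head hch
  obtain ⟨g1, g2, g3⟩ := chain_geom hJ hd l s hch
  have g0 := step_a_nonneg hs
  have hinit : ∀ δ : ℂ, (s.a : ℝ) = 0 →
      ((hd.A0 : ℂ) + hd.A1 * δ) / 2 ^ hd.e = ((hd.Q0 : ℂ) + hd.Q1 * δ) / 2 ^ hd.e := by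
    intro δ h0
    have h0' : s.a = 0 := by exact_mod_cast h0
    have h1 : s.C = s.H := by
      unfold StepD.a at h0'
      rw [div_eq_zero_iff] at h0'
      rcases h0' with h | h
      · have : (s.C : ℚ) = s.H := by linarith
        exact_mod_cast this
      · exfalso
        have : (0 : ℚ) < 2 ^ s.mm := by positivity
        linarith
    unfold startOK at hst
    simp only [Bool.and_eq_true, h1, if_true, decide_eq_true_eq] at hst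
    rw [hst.2.1, hst.2.2]
  have hex : ∀ (Bv : ℝ) (δ : ℂ), ∃ v q : ℝ → ℂ,
      SolOn (fun _ z => fCut hd Bv δ z) (s.a : ℝ) ((lastS s l).bb : ℝ) v q ∧
      v (s.a : ℝ) = ((hd.A0 : ℂ) + hd.A1 * δ) / 2 ^ hd.e ∧
      q (s.a : ℝ) = ((hd.Q0 : ℂ) + hd.Q1 * δ) / 2 ^ hd.e := by
    intro Bv δ
    exact hE (s.a : ℝ) ((lastS s l).bb : ℝ) 8 _ _ (bC hd Bv δ) g0 g1 (by norm_num) (hinit δ)
  choose w χ hw using hex
  have hN0 : ∀ (Bv : ℝ) (δ : ℂ), ‖δ‖ ≤ 1 →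
      NB (sc s.g : ℝ) (sc s.mu0 : ℝ) (s.a : ℝ) (w Bv δ (s.a : ℝ)) (wS hd s δ (s.a : ℝ))
        (χ Bv δ (s.a : ℝ)) (rS hd s δ (s.a : ℝ)) := by
    intro Bv δ hδ
    rw [(hw Bv δ).2.1, (hw Bv δ).2.2]
    exact hJ.2 hd s δ hδ hs hst
  have hmain := fun (Bv : ℝ) (hB : BAdm hd Bv) (δ : ℂ) (hδ : ‖δ‖ ≤ 1) =>
    chain_aux h4 hJ hd Bv hB δ hδ l s hch (w Bv δ) (χ Bv δ) (hw Bv δ).1 (hN0 Bv δ hδ)
  have hsol : ∀ (Bv : ℝ), BAdm hd Bv → ∀ δ : ℂ, ‖δ‖ ≤ 1 →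
      SolOn (fun _ z => z ^ 4 + bC hd Bv δ * z ^ 7) (s.a : ℝ) ((lastS s l).bb : ℝ)
          (w Bv δ) (χ Bv δ) := by
    intro Bv hB δ hδ
    have hS := (hw Bv δ).1
    refine ⟨hS.cv, hS.cq, hS.dv, fun t ht => ?_⟩
    have h1 := hS.dq t ht
    have h2 := ((hmain Bv hB δ hδ).1 t ⟨ht.1.le, ht.2.le⟩).1
    simp only [fCut, sq_eq_self h2] at h1
    exact h1
  refine ⟨w, χ, ?_, ?_, ?_, ?_, g1, g2⟩
  · intro Bv hB δ hδ
    exact ⟨hsol Bv hB δ hδ, (hw Bv δ).2.1, (hw Bv δ).2.2, (hmain Bv hB δ hδ).1,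
      (hmain Bv hB δ hδ).2⟩
  · intro Bv hB
    exact hH (s.a : ℝ) ((lastS s l).bb : ℝ) 8 ((hd.A0 : ℂ) / 2 ^ hd.e) ((hd.A1 : ℂ) / 2 ^ hd.e)
      ((hd.Q0 : ℂ) / 2 ^ hd.e) ((hd.Q1 : ℂ) / 2 ^ hd.e) (Bv : ℂ) ((hd.B1 : ℂ) / 2 ^ hd.e)
      (w Bv) (χ Bv) g0 g1 (fun δ hδ => hsol Bv hB δ hδ)
      (fun δ _ => ⟨by rw [(hw Bv δ).2.1]; ring, by rw [(hw Bv δ).2.2]; ring⟩)
      (fun δ hδ t ht => ((hmain Bv hB δ hδ).1 t ht).1)
  · intro Bv hB δ hδ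
    have hδ' : ‖(δ : ℂ)‖ ≤ 1 := by simpa using hδ
    have h1 := hsol Bv hB (δ : ℂ) hδ'
    have e1 : bC hd Bv (δ : ℂ) = ((Bv + (hd.B1 : ℝ) / 2 ^ hd.e * δ : ℝ) : ℂ) := by
      unfold bC
      push_cast
      ring
    rw [e1] at h1
    have e2 : ((hd.A0 : ℂ) + hd.A1 * (δ : ℂ)) / 2 ^ hd.e =
        ((((hd.A0 : ℝ) + hd.A1 * δ) / 2 ^ hd.e : ℝ) : ℂ) := by
      push_cast
      ring
    have e3 : ((hd.Q0 : ℂ) + hd.Q1 * (δ : ℂ)) / 2 ^ hd.e =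
        ((((hd.Q0 : ℝ) + hd.Q1 * δ) / 2 ^ hd.e : ℝ) : ℂ) := by
      push_cast
      ring
    exact (hR (s.a : ℝ) ((lastS s l).bb : ℝ) _ (w Bv δ) (χ Bv δ) g0 g1 h1
      (by rw [(hw Bv δ).2.1, e2, Complex.ofReal_im])
      (by rw [(hw Bv δ).2.2, e3, Complex.ofReal_im])).1
  · intro Bv Bv' hB hB' δ hδ
    refine pair_aux h4 hJ hd Bv Bv' hB hB' δ hδ |Bv - Bv'| (abs_nonneg _) le_rfl l s hch
      (w Bv δ) (χ Bv δ) (w Bv' δ) (χ Bv' δ) (hw Bv δ).1 (hw Bv' δ).1 (hN0 Bv δ hδ)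
      (hN0 Bv' δ hδ) ?_
    rw [(hw Bv δ).2.1, (hw Bv δ).2.2, (hw Bv' δ).2.1, (hw Bv' δ).2.2]
    unfold NB
    simp only [sub_self, norm_zero, mul_zero]
    have := sq_nonneg ((sc s.nu0 : ℝ) * |Bv - Bv'|)
    simpa using this

end Pool.Agent.W2helper71.LN
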