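import Mathlib
import Pool.Agent.W2helper59.LN.Stm
import Pool.Agent.W2helper59.LN.Eng
import Pool.Agent.W2helper71.LN.S5

/-!
# S03669, piece S6: auxiliary lemmas (list polynomials, Cauchy estimates, concavity)
-/

set_option autoImplicit false

namespace Pool.Agent.W2helper71.LN

open Set Metric Pool.Agent.W2helper59.LN

/-! ## list polynomials -/

section lists
variable {A : Type*} [CommRing A]

theorem ev1_smulL (d : A) (c : ℤ) (l : List ℤ) : ev1 d (smulL c l) = (c : A) * ev1 d l := by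
  induction l with
  | nil => simp [smulL, ev1]
  | cons a l ih =>
    simp only [smulL, ev1, ih]
    push_cast
    ring

theorem ev1_addL (d : A) : ∀ l m : List ℤ, ev1 d (addL l m) = ev1 d l + ev1 d m := by
  intro l
  induction l with
  | nil => intro m; simp [addL, ev1]
  | cons a l ih =>
    intro m
    cases m with
    | nil => simp [addL, ev1]
    | cons b m =>
      simp only [addL, ev1, ih]
      push_cast
      ring

theorem ev2_smulLL (t d : A) (c : ℤ) (L : List (List ℤ)) :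
    ev2 t d (smulLL c L) = (c : A) * ev2 t d L := by
  induction L with
  | nil => simp [smulLL, ev2]
  | cons a l ih =>
    simp only [smulLL, ev2, ih, ev1_smulL]
    ring

theorem ev2_addLL (t d : A) : ∀ l m : List (List ℤ),
    ev2 t d (addLL l m) = ev2 t d l + ev2 t d m := by
  intro l
  induction l with
  | nil => intro m; simp [addLL, ev2]
  | cons a l ih =>
    intro m
    cases m with
    | nil => simp [addLL, ev2]
    | cons b m =>
      simp only [addLL, ev2, ih, ev1_addL]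
      ring

theorem ev2_qL (s : StepD) (L : List (List ℤ)) (t d : A) :
    ev2 t d (qL s L) = (s.H : A) * ev2 t d L + ((s.C : A) + (s.H : A) * t) * ev2 t d (dTau L) := by
  unfold qL
  simp only [ev2_addLL, ev2_smulLL, ev2, ev1]
  push_cast
  ring

theorem ev1_rowEv (σ : ℤ) (d : A) (L : List (List ℤ)) :
    ev1 d (rowEv σ L) = ev2 (σ : A) d L := by
  induction L with
  | nil => simp [rowEv, ev1, ev2]
  | cons r l ih => simp only [rowEv, ev2, ev1_addL, ev1_smulL, ih]

theorem ev1_dRowAux_succ (z : A) : ∀ (l : List ℤ) (i : ℤ),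
    ev1 z (dRowAux (i + 1) l) = ev1 z l + ev1 z (dRowAux i l) := by
  intro l
  induction l with
  | nil => intro i; simp [dRowAux, ev1]
  | cons a l ih =>
    intro i
    simp only [dRowAux, ev1, ih]
    push_cast
    ring

theorem ev1_dRow_cons (z : A) (a : ℤ) (l : List ℤ) :
    ev1 z (dRow (a :: l)) = ev1 z l + z * ev1 z (dRow l) := by
  have h := ev1_dRowAux_succ z l 0
  simp only [dRow, List.tail_cons]
  rw [zero_add] at h
  rw [h]
  congr 1
  cases l with
  | nil => simp [dRowAux, ev1]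
  | cons b l => simp [dRowAux, ev1]

end lists

theorem hasDerivAt_ev1 (l : List ℤ) (z : ℂ) :
    HasDerivAt (fun z : ℂ => ev1 z l) (ev1 z (dRow l)) z := by
  induction l with
  | nil => simpa [ev1, dRow, dRowAux] using hasDerivAt_const z (0 : ℂ)
  | cons a l ih =>
    rw [ev1_dRow_cons]
    simp only [ev1]
    have h := (hasDerivAt_const z ((a : ℤ) : ℂ)).add ((hasDerivAt_id z).mul ih)
    refine h.congr_deriv ?_
    simp

theorem hasDerivAt_ev2 (L : List (List ℤ)) (t z : ℂ) :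
    HasDerivAt (fun z : ℂ => ev2 t z L) (ev2 t z (dDel L)) z := by
  induction L with
  | nil => simpa [ev2, dDel] using hasDerivAt_const z (0 : ℂ)
  | cons r L ih =>
    simp only [ev2, dDel]
    exact (hasDerivAt_ev1 r z).add (ih.const_mul t)

theorem natAbs_cast_norm (a : ℤ) : ((a.natAbs : ℕ) : ℝ) = ‖(a : ℂ)‖ := by
  rw [Nat.cast_natAbs, Complex.norm_intCast, Int.cast_abs]

theorem norm_ev1_le {z : ℂ} (hz : ‖z‖ ≤ 1 / 2) (l : List ℤ) : ‖ev1 z l‖ ≤ ((nh1 l : ℚ) : ℝ) := by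
  induction l with
  | nil => simp [ev1, nh1]
  | cons a l ih =>
    simp only [ev1, nh1]
    push_cast
    rw [natAbs_cast_norm]
    have h1 : ‖z * ev1 z l‖ ≤ 1 / 2 * ((nh1 l : ℚ) : ℝ) := by
      rw [norm_mul]
      exact mul_le_mul hz ih (norm_nonneg _) (by norm_num)
    have := norm_add_le (a : ℂ) (z * ev1 z l)
    linarith

theorem norm_ev1_sub_le {z : ℂ} (hz : ‖z‖ ≤ 1 / 2) (l : List ℤ) :
    ‖ev1 z l - ((hd1 l : ℤ) : ℂ)‖ ≤ ((nh1 l : ℚ) : ℝ) - (((hd1 l).natAbs : ℕ) : ℝ) := by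
  cases l with
  | nil => simp [ev1, nh1, hd1]
  | cons a l =>
    simp only [ev1, nh1, hd1, List.headD_cons]
    push_cast
    have h1 : ‖z * ev1 z l‖ ≤ 1 / 2 * ((nh1 l : ℚ) : ℝ) := by
      rw [norm_mul]
      exact mul_le_mul hz (norm_ev1_le hz l) (norm_nonneg _) (by norm_num)
    have e : (a : ℂ) + z * ev1 z l - a = z * ev1 z l := by ring
    rw [e]
    linarith

theorem norm_ev2_le {z t : ℂ} (hz : ‖z‖ ≤ 1 / 2) (ht : ‖t‖ ≤ 1) (L : List (List ℤ)) :
    ‖ev2 t z L‖ ≤ ((nh2 L : ℚ) : ℝ) := by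
  induction L with
  | nil => simp [ev2, nh2]
  | cons r L ih =>
    simp only [ev2, nh2]
    push_cast
    have h1 : ‖t * ev2 t z L‖ ≤ 1 * ((nh2 L : ℚ) : ℝ) := by
      rw [norm_mul]
      exact mul_le_mul ht ih (norm_nonneg _) (by norm_num)
    have := norm_add_le (ev1 z r) (t * ev2 t z L)
    have := norm_ev1_le hz r
    linarith

theorem norm_ev2_sub_le {z t : ℂ} (hz : ‖z‖ ≤ 1 / 2) (ht : ‖t‖ ≤ 1) (L : List (List ℤ)) :
    ‖ev2 t z L - ((hd2 L : ℤ) : ℂ)‖ ≤ ((nh2 L : ℚ) : ℝ) - (((hd2 L).natAbs : ℕ) : ℝ) := by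
  cases L with
  | nil => simp [ev2, nh2, hd2, hd1]
  | cons r L =>
    simp only [ev2, nh2, hd2, List.headD_cons]
    push_cast
    have h1 : ‖t * ev2 t z L‖ ≤ 1 * ((nh2 L : ℚ) : ℝ) := by
      rw [norm_mul]
      exact mul_le_mul ht (norm_ev2_le hz ht L) (norm_nonneg _) (by norm_num)
    have h2 := norm_ev1_sub_le hz r
    have e : ev1 z r + t * ev2 t z L - ((hd1 r : ℤ) : ℂ) =
      (ev1 z r - ((hd1 r : ℤ) : ℂ)) + t * ev2 t z L := by ring
    rw [e]
    have := norm_add_le (ev1 z r - ((hd1 r : ℤ) : ℂ)) (t * ev2 t z L)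
    linarith

theorem lo1_le_re {z : ℂ} (hz : ‖z‖ ≤ 1 / 2) (l : List ℤ) :
    ((lo1 l : ℚ) : ℝ) ≤ (ev1 z l).re := by
  have h1 := norm_ev1_sub_le hz l
  have h2 := (abs_le.1 (Complex.abs_re_le_norm (ev1 z l - ((hd1 l : ℤ) : ℂ)))).1
  rw [Complex.sub_re, Complex.intCast_re] at h2
  unfold lo1
  push_cast
  linarith

theorem lo2_le_re {z t : ℂ} (hz : ‖z‖ ≤ 1 / 2) (ht : ‖t‖ ≤ 1) (L : List (List ℤ)) :
    ((lo2 L : ℚ) : ℝ) ≤ (ev2 t z L).re := by
  have h1 := norm_ev2_sub_le hz ht L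
  have h2 := (abs_le.1 (Complex.abs_re_le_norm (ev2 t z L - ((hd2 L : ℤ) : ℂ)))).1
  rw [Complex.sub_re, Complex.intCast_re] at h2
  unfold lo2
  push_cast
  linarith

/-! ## Cauchy estimates -/

theorem diffContOnCl_small {F : ℂ → ℂ} (hF : DifferentiableOn ℂ F (ball 0 1)) {z : ℂ}
    (hz : ‖z‖ ≤ 1 / 2) : DiffContOnCl ℂ F (ball z (2 / 5)) := by
  apply DifferentiableOn.diffContOnCl
  apply hF.mono
  refine (closure_ball_subset_closedBall).trans ?_
  intro y hy
  rw [mem_closedBall, dist_eq_norm] at hy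
  rw [mem_ball_zero_iff]
  have : ‖y‖ ≤ ‖y - z‖ + ‖z‖ := by
    have := norm_add_le (y - z) z
    simpa using this
  linarith

theorem sphere_mem {z y : ℂ} (hz : ‖z‖ ≤ 1 / 2) (hy : y ∈ sphere z (2 / 5)) : ‖y‖ ≤ 1 := by
  rw [mem_sphere, dist_eq_norm] at hy
  have : ‖y‖ ≤ ‖y - z‖ + ‖z‖ := by
    have := norm_add_le (y - z) z
    simpa using this
  linarith

theorem ball_mem {z : ℂ} (hz : ‖z‖ ≤ 1 / 2) : ball (0 : ℂ) 1 ∈ nhds z := by
  apply isOpen_ball.mem_nhds
  rw [mem_ball_zero_iff]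
  linarith

theorem cauchy1 {F G G' : ℂ → ℂ} {E : ℝ} (hF : DifferentiableOn ℂ F (ball 0 1))
    (hG : ∀ z, HasDerivAt G (G' z) z) (hE : ∀ z, ‖z‖ ≤ 1 → ‖F z - G z‖ ≤ E) {z : ℂ}
    (hz : ‖z‖ ≤ 1 / 2) : ‖deriv F z - G' z‖ ≤ 5 / 2 * E := by
  have hGd : DifferentiableOn ℂ G (ball 0 1) :=
    fun y _ => (hG y).differentiableAt.differentiableWithinAt
  have hd := diffContOnCl_small (hF.sub hGd) hz
  have h := Complex.norm_deriv_le_of_forall_mem_sphere_norm_le (by norm_num : (0:ℝ) < 2 / 5) hd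
    (C := E) (fun y hy => hE y (sphere_mem hz hy))
  have hFd : DifferentiableAt ℂ F z := hF.differentiableAt (ball_mem hz)
  have e : deriv (F - G) z = deriv F z - G' z := by
    rw [deriv_sub hFd (hG z).differentiableAt, (hG z).deriv]
  rw [e] at h
  calc _ ≤ _ := h
    _ = _ := by ring

theorem cauchy2 {F G G' G'' : ℂ → ℂ} {E : ℝ} (hF : DifferentiableOn ℂ F (ball 0 1))
    (hG : ∀ z, HasDerivAt G (G' z) z) (hG' : ∀ z, HasDerivAt G' (G'' z) z)
    (hE : ∀ z, ‖z‖ ≤ 1 → ‖F z - G z‖ ≤ E) {z : ℂ}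
    (hz : ‖z‖ ≤ 1 / 2) : ‖deriv (deriv F) z - G'' z‖ ≤ 25 / 2 * E := by
  have hGd : DifferentiableOn ℂ G (ball 0 1) :=
    fun y _ => (hG y).differentiableAt.differentiableWithinAt
  have hd := diffContOnCl_small (hF.sub hGd) hz
  have h := Complex.norm_iteratedDeriv_le_of_forall_mem_sphere_norm_le 2
    (by norm_num : (0:ℝ) < 2 / 5) hd
    (C := E) (fun y hy => hE y (sphere_mem hz hy))
  have hFd : DifferentiableOn ℂ (deriv F) (ball 0 1) := hF.deriv isOpen_ball
  have e1 : deriv (F - G) =ᶠ[nhds z] fun y => deriv F y - G' y := by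
    filter_upwards [ball_mem hz] with y hy
    rw [deriv_sub (hF.differentiableAt (isOpen_ball.mem_nhds hy)) (hG y).differentiableAt,
      (hG y).deriv]
  have e : iteratedDeriv 2 (F - G) z = deriv (deriv F) z - G'' z := by
    rw [iteratedDeriv_succ, iteratedDeriv_one, e1.deriv_eq]
    have := (hFd.differentiableAt (ball_mem hz)).hasDerivAt.sub (hG' z)
    exact this.deriv
  rw [e] at h
  calc _ ≤ _ := h
    _ = _ := by norm_num [Nat.factorial]; ring

theorem real_hasDerivAt {F : ℂ → ℂ} (hF : DifferentiableOn ℂ F (ball 0 1)) {x : ℝ}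
    (hx : |x| < 1) : HasDerivAt (fun x : ℝ => (F x).re) (deriv F x).re x := by
  apply HasDerivAt.real_of_complex
  apply DifferentiableAt.hasDerivAt
  apply hF.differentiableAt
  apply isOpen_ball.mem_nhds
  rw [mem_ball_zero_iff]
  simpa using hx

theorem real_strictMono {F G G' : ℂ → ℂ} {E : ℝ} (hF : DifferentiableOn ℂ F (ball 0 1))
    (hG : ∀ z, HasDerivAt G (G' z) z) (hE : ∀ z, ‖z‖ ≤ 1 → ‖F z - G z‖ ≤ E)
    (hpos : ∀ x : ℝ, |x| ≤ 1 / 2 → 5 / 2 * E < (G' x).re) :
    StrictMonoOn (fun x : ℝ => (F x).re) (Icc (-1/2) (1/2)) := by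
  have habs : ∀ x ∈ Icc (-1/2 : ℝ) (1/2), |x| ≤ 1 / 2 := by
    intro x hx
    rw [abs_le]
    exact ⟨by linarith [hx.1], hx.2⟩
  apply strictMonoOn_of_deriv_pos (convex_Icc _ _)
  · intro x hx
    exact (real_hasDerivAt hF (by linarith [habs x hx])).continuousAt.continuousWithinAt
  · intro x hx
    have hx' := habs x (interior_subset hx)
    rw [(real_hasDerivAt hF (by linarith)).deriv]
    have h1 := cauchy1 hF hG hE (z := (x : ℂ)) (by simpa using hx')
    have h2 := (abs_le.1 ((Complex.abs_re_le_norm _).trans h1)).1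
    rw [Complex.sub_re] at h2
    linarith [hpos x hx']

theorem real_strictAnti {F G G' : ℂ → ℂ} {E : ℝ} (hF : DifferentiableOn ℂ F (ball 0 1))
    (hG : ∀ z, HasDerivAt G (G' z) z) (hE : ∀ z, ‖z‖ ≤ 1 → ‖F z - G z‖ ≤ E)
    (hpos : ∀ x : ℝ, |x| ≤ 1 / 2 → (G' x).re < -(5 / 2 * E)) :
    StrictAntiOn (fun x : ℝ => (F x).re) (Icc (-1/2) (1/2)) := by
  have h := real_strictMono (F := fun z => -F z) (G := fun z => -G z) (G' := fun z => -G' z)
    (E := E) hF.neg (fun z => (hG z).neg)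
    (fun z hz => by
      have := hE z hz
      rw [show -F z - -G z = -(F z - G z) by ring, norm_neg]
      exact this)
    (fun x hx => by
      have := hpos x hx
      simp only [Complex.neg_re]
      linarith)
  intro x hx y hy hxy
  have := h hx hy hxy
  simp only [Complex.neg_re] at this
  simp only
  linarith

theorem real_strictConvex {F G G' G'' : ℂ → ℂ} {E : ℝ} (hF : DifferentiableOn ℂ F (ball 0 1))
    (hG : ∀ z, HasDerivAt G (G' z) z) (hG' : ∀ z, HasDerivAt G' (G'' z) z)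
    (hE : ∀ z, ‖z‖ ≤ 1 → ‖F z - G z‖ ≤ E)
    (hpos : ∀ x : ℝ, |x| ≤ 1 / 2 → 25 / 2 * E < (G'' x).re) :
    StrictConvexOn ℝ (Icc (-1/2) (1/2)) (fun x : ℝ => (F x).re) := by
  have habs : ∀ x ∈ Icc (-1/2 : ℝ) (1/2), |x| ≤ 1 / 2 := by
    intro x hx
    rw [abs_le]
    exact ⟨by linarith [hx.1], hx.2⟩
  apply strictConvexOn_of_deriv2_pos (convex_Icc _ _)
  · intro x hx
    exact (real_hasDerivAt hF (by linarith [habs x hx])).continuousAt.continuousWithinAt
  · intro x hx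
    have hx' := habs x (interior_subset hx)
    have hFd : DifferentiableOn ℂ (deriv F) (ball 0 1) := hF.deriv isOpen_ball
    have e1 : deriv (fun x : ℝ => (F x).re) =ᶠ[nhds x] fun x : ℝ => (deriv F x).re := by
      have : Ioo (-1 : ℝ) 1 ∈ nhds x := by
        apply isOpen_Ioo.mem_nhds
        have := abs_le.1 hx'
        constructor <;> linarith
      filter_upwards [this] with y hy
      exact (real_hasDerivAt hF (abs_lt.2 hy)).deriv
    simp only [Function.iterate_succ, Function.iterate_zero, Function.comp_apply, id_eq]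
    rw [e1.deriv_eq, (real_hasDerivAt hFd (by linarith)).deriv]
    have h1 := cauchy2 hF hG hG' hE (z := (x : ℂ)) (by simpa using hx')
    have h2 := (abs_le.1 ((Complex.abs_re_le_norm _).trans h1)).1
    rw [Complex.sub_re] at h2
    linarith [hpos x hx']

theorem real_lip {F G G' : ℂ → ℂ} {E M : ℝ} (hF : DifferentiableOn ℂ F (ball 0 1))
    (hG : ∀ z, HasDerivAt G (G' z) z) (hE : ∀ z, ‖z‖ ≤ 1 → ‖F z - G z‖ ≤ E)
    (hM : ∀ x : ℝ, |x| ≤ 1 / 2 → ‖G' x‖ + 5 / 2 * E ≤ M) :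
    ∀ x ∈ Icc (-1/2 : ℝ) (1/2), ∀ y ∈ Icc (-1/2 : ℝ) (1/2),
      |(F x).re - (F y).re| ≤ M * |x - y| := by
  have habs : ∀ x ∈ Icc (-1/2 : ℝ) (1/2), |x| ≤ 1 / 2 := by
    intro x hx
    rw [abs_le]
    exact ⟨by linarith [hx.1], hx.2⟩
  intro x hx y hy
  have := Convex.norm_image_sub_le_of_norm_hasDerivWithin_le
    (f := fun x : ℝ => (F x).re) (f' := fun x : ℝ => (deriv F x).re) (C := M)
    (s := Icc (-1/2 : ℝ) (1/2))
    (fun x hx => (real_hasDerivAt hF (by linarith [habs x hx])).hasDerivWithinAt)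
    (fun x hx => by
      have h1 := cauchy1 hF hG hE (z := (x : ℂ)) (by simpa using habs x hx)
      have h2 := Complex.abs_re_le_norm (deriv F x)
      have h3 : ‖deriv F x‖ ≤ ‖deriv F x - G' x‖ + ‖G' x‖ := by
        have := norm_add_le (deriv F x - G' x) (G' x)
        simpa using this
      have h4 := hM x (habs x hx)
      rw [Real.norm_eq_abs]
      linarith)
    (convex_Icc _ _) hy hx
  simpa [Real.norm_eq_abs] using this

/-! ## concavity -/

theorem pos_of_concave {t0 t1 B : ℝ} {v q : ℝ → ℝ}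
    (h : SolOn (fun _ v => v ^ 4 + B * v ^ 7) t0 t1 v q) (h0 : 0 ≤ t0) (h01 : t0 < t1)
    (hB : 0 ≤ B) (hB1 : B ≤ 1) (hv : ∀ t ∈ Icc t0 t1, -1 ≤ v t) (hi : 0 < v t0)
    (hf : 0 < v t1) : ∀ t ∈ Icc t0 t1, 0 < v t := by
  have hq : AntitoneOn q (Icc t0 t1) := by
    apply antitoneOn_of_deriv_nonpos (convex_Icc _ _) h.cq
    · rw [interior_Icc]
      exact fun t ht => (h.dq t ht).differentiableAt.differentiableWithinAt
    · rw [interior_Icc]
      intro t ht
      rw [(h.dq t ht).deriv, smul_eq_mul]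
      have h1 := hv t ⟨ht.1.le, ht.2.le⟩
      have h2 : 0 ≤ v t ^ 4 + B * v t ^ 7 := by
        have h3 : (-1) ≤ v t ^ 3 := by
          have : 0 ≤ v t ^ 2 - v t + 1 := by nlinarith [sq_nonneg (v t - 1/2)]
          nlinarith [mul_nonneg (by linarith : 0 ≤ v t + 1) this]
        have h4 : 0 ≤ 1 + B * v t ^ 3 := by nlinarith
        have h5 : v t ^ 4 + B * v t ^ 7 = v t ^ 4 * (1 + B * v t ^ 3) := by ring
        rw [h5]
        positivity
      have : 0 < t := lt_of_le_of_lt h0 ht.1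
      have := mul_nonneg this.le h2
      linarith
  have hp : ContinuousOn (fun t => t * v t) (Icc t0 t1) := continuousOn_id.mul h.cv
  have hder : ∀ t ∈ Ioo t0 t1, HasDerivAt (fun t => t * v t) (q t) t := by
    intro t ht
    simpa [smul_eq_mul] using h.dv t ht
  have hc : ConcaveOn ℝ (Icc t0 t1) (fun t => t * v t) := by
    apply AntitoneOn.concaveOn_of_deriv (convex_Icc _ _) hp
    · rw [interior_Icc]
      exact fun t ht => (hder t ht).differentiableAt.differentiableWithinAt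
    · rw [interior_Icc]
      intro x hx y hy hxy
      rw [(hder x hx).deriv, (hder y hy).deriv]
      exact hq ⟨hx.1.le, hx.2.le⟩ ⟨hy.1.le, hy.2.le⟩ hxy
  intro t ht
  rcases eq_or_lt_of_le ht.1 with he | hlt
  · rw [← he]; exact hi
  · have hd : 0 < t1 - t0 := by linarith
    have ha1 : 0 ≤ (t1 - t) / (t1 - t0) := div_nonneg (by linarith [ht.2]) hd.le
    have hb1 : 0 ≤ (t - t0) / (t1 - t0) := div_nonneg (by linarith) hd.le
    have hab1 : (t1 - t) / (t1 - t0) + (t - t0) / (t1 - t0) = 1 := by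
      rw [← add_div, div_eq_one_iff_eq hd.ne']
      ring
    have h1 := hc.2 (left_mem_Icc.2 h01.le) (right_mem_Icc.2 h01.le) ha1 hb1 hab1
    simp only [smul_eq_mul] at h1
    have e : (t1 - t) / (t1 - t0) * t0 + (t - t0) / (t1 - t0) * t1 = t := by
      field_simp
      ring
    rw [e] at h1
    have h2 : 0 ≤ (t1 - t) / (t1 - t0) * (t0 * v t0) :=
      mul_nonneg (div_nonneg (by linarith [ht.2]) hd.le) (mul_nonneg h0 hi.le)
    have h3 : 0 < (t - t0) / (t1 - t0) * (t1 * v t1) :=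
      mul_pos (div_pos (by linarith) hd) (mul_pos (by linarith) hf)
    have h4 : 0 < t * v t := by linarith
    have h5 : 0 < t := by linarith
    by_contra hcon
    push Not at hcon
    nlinarith

end Pool.Agent.W2helper71.LN
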