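import Mathlib
import Pool.Agent.W2helper59.LN.Stm
import Pool.Agent.W2helper59.LN.Eng
import Pool.Agent.W2helper71.LN.S5
import Pool.Agent.W2helper71.LN.S6a

/-!
# S03669, piece S6: final checks of a validated box
-/

set_option autoImplicit false

namespace Pool.Agent.W2helper71.LN

open Set Metric Pool.Agent.W2helper59.LN

theorem last_ok (hd : Hdr) : ∀ (l : List StepD) (s : StepD), chainAux hd s l = true →
    stepOK hd (lastS s l) = true := by
  intro l
  induction l with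
  | nil => intro s h; simpa [chainAux, lastS] using h
  | cons s' l' ih =>
    intro s h
    simp only [chainAux, Bool.and_eq_true] at h
    simp only [lastS]
    exact ih s' h.2

theorem step_g {hd : Hdr} {s : StepD} (h : stepOK hd s = true) : (0 : ℝ) < (sc s.g : ℝ) := by
  unfold stepOK at h
  simp only [Bool.and_eq_true, Nat.ble_eq] at h
  have h1 : 1 ≤ s.g := by tauto
  have : (0 : ℚ) < sc s.g := by
    unfold sc
    have : (0 : ℚ) < s.g := by exact_mod_cast h1
    positivity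
  exact_mod_cast this

theorem sc_nonneg (n : ℕ) : (0 : ℝ) ≤ ((sc n : ℚ) : ℝ) := by
  have : (0 : ℚ) ≤ sc n := by
    unfold sc
    positivity
  exact_mod_cast this

theorem step_a_pos {s : StepD} (h : s.H < s.C) : (0 : ℝ) < (s.a : ℝ) := by
  have : (0 : ℚ) < s.a := by
    unfold StepD.a
    have h' : (s.H : ℚ) < s.C := by exact_mod_cast h
    apply div_pos
    · linarith
    · positivity
  exact_mod_cast this

theorem NB_q {g μ t : ℝ} {v w q r : ℂ} (hμ : 0 ≤ μ) (h : NB g μ t v w q r) : ‖q - r‖ ≤ μ := by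
  unfold NB at h
  have h1 : ‖q - r‖ ^ 2 ≤ μ ^ 2 := by nlinarith [sq_nonneg (g * (t * ‖v - w‖))]
  exact le_of_sq_le_sq h1 hμ

theorem NB_v {g μ t a : ℝ} {v w q r : ℂ} (hμ : 0 ≤ μ) (hg : 0 < g) (ha : 0 < a) (hat : a ≤ t)
    (h : NB g μ t v w q r) : ‖v - w‖ ≤ μ / (g * a) := by
  unfold NB at h
  have h1 : (g * (t * ‖v - w‖)) ^ 2 ≤ μ ^ 2 := by nlinarith [sq_nonneg (‖q - r‖)]
  have h2 := le_of_sq_le_sq h1 hμ
  rw [le_div_iff₀ (by positivity)]
  have h3 : a * ‖v - w‖ ≤ t * ‖v - w‖ := mul_le_mul_of_nonneg_right hat (norm_nonneg _)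
  have h4 := mul_le_mul_of_nonneg_left h3 hg.le
  linarith [mul_comm (‖v - w‖) (g * a), mul_assoc g a ‖v - w‖]

theorem c_cast (s : StepD) : (s.c : ℝ) = (s.C : ℝ) / 2 ^ s.mm := by
  unfold StepD.c; push_cast; rfl

theorem h_cast (s : StepD) : (s.h : ℝ) = (s.H : ℝ) / 2 ^ s.mm := by
  unfold StepD.h; push_cast; rfl

theorem a_cast (s : StepD) : (s.a : ℝ) = ((s.C : ℝ) - s.H) / 2 ^ s.mm := by
  unfold StepD.a; push_cast; rfl

theorem b_cast (s : StepD) : (s.bb : ℝ) = ((s.C : ℝ) + s.H) / 2 ^ s.mm := by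
  unfold StepD.bb; push_cast; rfl

/-- the local variable -/
noncomputable def tauS (s : StepD) (t : ℝ) : ℝ := (t - (s.c : ℝ)) / (s.h : ℝ)

theorem tau_abs {s : StepD} (hH : 1 ≤ s.H) {t : ℝ} (ht : t ∈ Icc (s.a : ℝ) (s.bb : ℝ)) :
    ‖((tauS s t : ℝ) : ℂ)‖ ≤ 1 := by
  rw [Complex.norm_real, Real.norm_eq_abs, abs_le]
  have hH' : (0 : ℝ) < s.H := by exact_mod_cast hH
  have hp : (0 : ℝ) < 2 ^ s.mm := by positivity
  have h1 := ht.1
  have h2 := ht.2
  rw [a_cast] at h1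
  rw [b_cast] at h2
  have hh : (0 : ℝ) < (s.h : ℝ) := by rw [h_cast]; positivity
  unfold tauS
  rw [le_div_iff₀ hh, div_le_iff₀ hh, c_cast, h_cast]
  rw [div_le_iff₀ hp] at h1
  rw [le_div_iff₀ hp] at h2
  constructor
  · rw [← mul_le_mul_iff_left₀ hp]
    have e1 : -1 * ((s.H : ℝ) / 2 ^ s.mm) * 2 ^ s.mm = - s.H := by field_simp
    have e2 : (t - (s.C : ℝ) / 2 ^ s.mm) * 2 ^ s.mm = t * 2 ^ s.mm - s.C := by field_simp
    rw [e1, e2]
    linarith
  · rw [← mul_le_mul_iff_left₀ hp]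
    have e1 : 1 * ((s.H : ℝ) / 2 ^ s.mm) * 2 ^ s.mm = s.H := by field_simp
    have e2 : (t - (s.C : ℝ) / 2 ^ s.mm) * 2 ^ s.mm = t * 2 ^ s.mm - s.C := by field_simp
    rw [e1, e2]
    linarith

theorem tau_left {s : StepD} (hH : 1 ≤ s.H) : tauS s (s.a : ℝ) = -1 := by
  have hH' : (0 : ℝ) < s.H := by exact_mod_cast hH
  unfold tauS
  rw [a_cast, c_cast, h_cast]
  field_simp
  ring

theorem tau_right {s : StepD} (hH : 1 ≤ s.H) : tauS s (s.bb : ℝ) = 1 := by
  have hH' : (0 : ℝ) < s.H := by exact_mod_cast hH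
  unfold tauS
  rw [b_cast, c_cast, h_cast]
  field_simp
  ring

theorem wS_eq (hd : Hdr) (s : StepD) (δ : ℂ) (t : ℝ) :
    wS hd s δ t = ev2 ((tauS s t : ℝ) : ℂ) δ (s.L hd) / 2 ^ s.M := rfl

theorem rS_eq (hd : Hdr) {s : StepD} (hH : 1 ≤ s.H) (δ : ℂ) (t : ℝ) :
    rS hd s δ t = ev2 ((tauS s t : ℝ) : ℂ) δ (qL s (s.L hd)) / (2 ^ s.M * s.H) := by
  have hH' : (0 : ℝ) < s.H := by exact_mod_cast hH
  have hHc : (s.H : ℂ) ≠ 0 := by exact_mod_cast hH'.ne'
  rw [ev2_qL]
  unfold rS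
  rw [wS_eq]
  have e : ((t / (s.h : ℝ) : ℝ) : ℂ) = ((s.C : ℂ) + s.H * ((tauS s t : ℝ) : ℂ)) / s.H := by
    have : t / (s.h : ℝ) = ((s.C : ℝ) + s.H * tauS s t) / s.H := by
      unfold tauS
      rw [c_cast, h_cast]
      field_simp
      ring
    rw [this]
    push_cast
    rfl
  rw [e]
  unfold tauS
  field_simp

section main

variable {hd : Hdr} {s : StepD}

/-- scaled real part bounds -/
theorem re_div_pow (x : ℂ) (M : ℕ) : (x / 2 ^ M).re = x.re / 2 ^ M := by
  have : (x / 2 ^ M) = x / ((2 ^ M : ℝ) : ℂ) := by push_cast; rfl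
  rw [this, Complex.div_ofReal_re]

theorem re_div_powH (x : ℂ) (M H : ℕ) : (x / (2 ^ M * (H : ℂ))).re = x.re / (2 ^ M * H) := by
  have : (x / (2 ^ M * (H : ℂ))) = x / ((2 ^ M * H : ℝ) : ℂ) := by push_cast; rfl
  rw [this, Complex.div_ofReal_re]

end main

theorem s6_final (hS : S5_chain) (hJ : S4_jump) (hR : P5_real) : S6_final := by
  intro hd s l hc hfB
  obtain ⟨w, χ, c1, c2, c3, c4, c5, c6⟩ := hS hd s l hc
  simp only [chainOK, Bool.and_eq_true] at hc
  obtain ⟨hst, hch⟩ := hc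
  have hs := chainAux_head hch
  have hlast := last_ok hd l s hch
  obtain ⟨g1, g2, g3⟩ := chain_geom hJ hd l s hch
  have g0 := step_a_nonneg hs
  have hH : 1 ≤ (lastS s l).H := (stepOK_geom hlast).1
  have hgpos := step_g hlast
  have hmu := sc_nonneg (lastS s l).mu1
  have hlab := step_a_lt hlast
  -- coefficient bounds
  have hfB' := hfB
  simp only [finB, Bool.and_eq_true, decide_eq_true_eq] at hfB'
  obtain ⟨⟨⟨fb1, fb2⟩, fb3⟩, fb4⟩ := hfB'
  have fb1' : (0 : ℝ) ≤ (hd.b0 : ℝ) - |hd.b1| / 2 - (sc hd.bt : ℝ) := by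
    have h1 : (0 : ℝ) ≤ ((hd.b0 - (hd.B1.natAbs : ℚ) / 2 ^ hd.e / 2 - sc hd.bt : ℚ) : ℝ) := by
      exact_mod_cast fb1
    push_cast at h1
    have e : |hd.b1| = ((hd.B1.natAbs : ℕ) : ℝ) / 2 ^ hd.e := by
      unfold Hdr.b1
      rw [abs_div, abs_of_pos (by positivity : (0:ℝ) < 2 ^ hd.e), Nat.cast_natAbs, Int.cast_abs]
    rw [e]
    exact h1
  have fb2' : (hd.b0 : ℝ) + |hd.b1| / 2 + (sc hd.bt : ℝ) ≤ 1 := by
    have h1 : ((hd.b0 + (hd.B1.natAbs : ℚ) / 2 ^ hd.e / 2 + sc hd.bt : ℚ) : ℝ) ≤ 1 := by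
      exact_mod_cast fb2
    push_cast at h1
    have e : |hd.b1| = ((hd.B1.natAbs : ℕ) : ℝ) / 2 ^ hd.e := by
      unfold Hdr.b1
      rw [abs_div, abs_of_pos (by positivity : (0:ℝ) < 2 ^ hd.e), Nat.cast_natAbs, Int.cast_abs]
    rw [e]
    exact h1
  have hcoef : ∀ Bv, BAdm hd Bv → ∀ δ ∈ Icc (-1/2 : ℝ) (1/2),
      0 ≤ Bv + hd.b1 * δ ∧ Bv + hd.b1 * δ ≤ 1 := by
    intro Bv hB δ hδ
    unfold BAdm at hB
    have h1 := abs_le.1 hB
    have h2 : |hd.b1 * δ| ≤ |hd.b1| / 2 := by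
      rw [abs_mul]
      have : |δ| ≤ 1 / 2 := abs_le.2 ⟨by linarith [hδ.1], hδ.2⟩
      nlinarith [abs_nonneg hd.b1]
    have h3 := abs_le.1 h2
    constructor <;> linarith
  have hinitpos : ∀ δ ∈ Icc (-1/2 : ℝ) (1/2), 0 < hd.a0 + hd.a1 * δ := by
    intro δ hδ
    have h1 : (0 : ℝ) < 2 * (hd.A0 : ℝ) - ((hd.A1.natAbs : ℤ) : ℝ) := by exact_mod_cast fb3
    have h2 : |(hd.A1 : ℝ) * δ| ≤ ((hd.A1.natAbs : ℤ) : ℝ) / 2 := by
      rw [abs_mul, Int.natCast_natAbs, Int.cast_abs]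
      have : |δ| ≤ 1 / 2 := abs_le.2 ⟨by linarith [hδ.1], hδ.2⟩
      nlinarith [abs_nonneg (hd.A1 : ℝ)]
    have h3 := abs_le.1 h2
    have e : hd.a0 + hd.a1 * δ = ((hd.A0 : ℝ) + hd.A1 * δ) / 2 ^ hd.e := by
      unfold Hdr.a0 Hdr.a1
      ring
    rw [e]
    apply div_pos
    · linarith
    · positivity
  have hδn : ∀ δ ∈ Icc (-1/2 : ℝ) (1/2), |δ| ≤ 1 := by
    intro δ hδ
    exact abs_le.2 ⟨by linarith [hδ.1], by linarith [hδ.2]⟩
  have hδn' : ∀ δ ∈ Icc (-1/2 : ℝ) (1/2), ‖(δ : ℂ)‖ ≤ 1 := by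
    intro δ hδ
    simpa using hδn δ hδ
  have hδh : ∀ δ ∈ Icc (-1/2 : ℝ) (1/2), ‖(δ : ℂ)‖ ≤ 1 / 2 := by
    intro δ hδ
    have : |δ| ≤ 1 / 2 := abs_le.2 ⟨by linarith [hδ.1], hδ.2⟩
    simpa using this
  have hδabs : ∀ δ : ℝ, |δ| ≤ 1 / 2 → ‖(δ : ℂ)‖ ≤ 1 / 2 := by
    intro δ hδ
    simpa using hδ
  -- initial values
  have hiv : ∀ Bv, BAdm hd Bv → ∀ δ ∈ Icc (-1/2 : ℝ) (1/2),
      (w Bv δ (s.a : ℝ)).re = hd.a0 + hd.a1 * δ ∧
      (χ Bv δ (s.a : ℝ)).re = hd.q0 + hd.q1 * δ := by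
    intro Bv hB δ hδ
    obtain ⟨_, h2, h3, _, _⟩ := c1 Bv hB δ (hδn' δ hδ)
    have e2 : ((hd.A0 : ℂ) + hd.A1 * (δ : ℂ)) / 2 ^ hd.e = ((hd.a0 + hd.a1 * δ : ℝ) : ℂ) := by
      unfold Hdr.a0 Hdr.a1
      push_cast
      ring
    have e3 : ((hd.Q0 : ℂ) + hd.Q1 * (δ : ℂ)) / 2 ^ hd.e = ((hd.q0 + hd.q1 * δ : ℝ) : ℂ) := by
      unfold Hdr.q0 Hdr.q1
      push_cast
      ring
    rw [h2, h3, e2, e3]
    exact ⟨Complex.ofReal_re _, Complex.ofReal_re _⟩
  -- real solutions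
  have hsol : ∀ Bv, BAdm hd Bv → ∀ δ ∈ Icc (-1/2 : ℝ) (1/2),
      SolOn (fun _ v => v ^ 4 + (Bv + hd.b1 * δ) * v ^ 7) (s.a : ℝ) ((lastS s l).bb : ℝ)
        (fun t => (w Bv δ t).re) (fun t => (χ Bv δ t).re) := by
    intro Bv hB δ hδ
    obtain ⟨h1, _, _, _, _⟩ := c1 Bv hB δ (hδn' δ hδ)
    have e1 : bC hd Bv (δ : ℂ) = ((Bv + hd.b1 * δ : ℝ) : ℂ) := by
      unfold bC Hdr.b1
      push_cast
      ring
    rw [e1] at h1
    have him := c3 Bv hB δ (hδn δ hδ) (s.a : ℝ) ⟨le_rfl, g1.le⟩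
    exact (hR (s.a : ℝ) ((lastS s l).bb : ℝ) _ (w Bv δ) (χ Bv δ) g0 g1 h1 him.1 him.2).2
  -- errors on the last step
  have hev : s.H < s.C ∨ (lastS s l).H < (lastS s l).C → 0 < ((lastS s l).a : ℝ) := by
    intro h
    rcases h with h | h
    · exact (step_a_pos h).trans_le g2
    · exact step_a_pos h
  have herrv : 0 < ((lastS s l).a : ℝ) → ∀ Bv, BAdm hd Bv → ∀ z : ℂ, ‖z‖ ≤ 1 →
      ∀ t ∈ Icc ((lastS s l).a : ℝ) ((lastS s l).bb : ℝ),
        ‖w Bv z t - ev2 ((tauS (lastS s l) t : ℝ) : ℂ) z ((lastS s l).L hd) /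
          2 ^ (lastS s l).M‖ ≤ ((evF (lastS s l) : ℚ) : ℝ) := by
    intro hpos Bv hB z hz t ht
    obtain ⟨_, _, _, _, h5⟩ := c1 Bv hB z hz
    have := NB_v hmu hgpos hpos ht.1 (h5 t ht)
    rw [wS_eq] at this
    unfold evF
    push_cast
    exact this
  have herrq : ∀ Bv, BAdm hd Bv → ∀ z : ℂ, ‖z‖ ≤ 1 →
      ∀ t ∈ Icc ((lastS s l).a : ℝ) ((lastS s l).bb : ℝ),
        ‖χ Bv z t - ev2 ((tauS (lastS s l) t : ℝ) : ℂ) z (qL (lastS s l) ((lastS s l).L hd)) /
          (2 ^ (lastS s l).M * (lastS s l).H)‖ ≤ ((eqF (lastS s l) : ℚ) : ℝ) := by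
    intro Bv hB z hz t ht
    obtain ⟨_, _, _, _, h5⟩ := c1 Bv hB z hz
    have := NB_q hmu (h5 t ht)
    rw [rS_eq hd hH] at this
    unfold eqF
    exact this
  have hGv : ∀ (t z : ℂ) (L : List (List ℤ)) (M : ℕ),
      HasDerivAt (fun z : ℂ => ev2 t z L / 2 ^ M) (ev2 t z (dDel L) / 2 ^ M) z :=
    fun t z L M => (hasDerivAt_ev2 L t z).div_const _
  have hG1 : ∀ (z : ℂ) (L : List ℤ) (c : ℂ),
      HasDerivAt (fun z : ℂ => ev1 z L / c) (ev1 z (dRow L) / c) z :=
    fun z L c => (hasDerivAt_ev1 L z).div_const _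
  refine ⟨fun Bv δ t => (w Bv δ t).re, fun Bv δ t => (χ Bv δ t).re, ?_, ?_⟩
  · intro m M1 hl hZ hL Bv hB
    simp only [finZ, Bool.and_eq_true, decide_eq_true_eq] at hZ
    obtain ⟨⟨⟨⟨z1, z2⟩, z3⟩, z4⟩, z5⟩ := hZ
    have z5' : (lastS s l).H < (lastS s l).C := by simpa using z5
    have hapos := step_a_pos z5'
    have hga : (s.a : ℝ) < ((lastS s l).a : ℝ) := by
      cases l with
      | nil => exact absurd rfl hl
      | cons s' l' =>
        simp only [chainAux, Bool.and_eq_true] at hch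
        obtain ⟨⟨h1, h2⟩, h3⟩ := hch
        have h3' := chainAux_head h3
        have hj := (hJ.1 hd s s' 0 0 0 (by simp) h1 h3' h2).1
        have hj' : (s.bb : ℝ) = (s'.a : ℝ) := by exact_mod_cast hj
        obtain ⟨_, i2, _⟩ := chain_geom hJ hd l' s' h3
        have := step_a_lt h1
        simp only [lastS]
        linarith
    have hM2 : (0 : ℝ) < 2 ^ (lastS s l).M := by positivity
    have hHr : (0 : ℝ) < (lastS s l).H := by exact_mod_cast hH
    -- value at the left end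
    have hleft : ∀ δ ∈ Icc (-1/2 : ℝ) (1/2), 0 < (w Bv δ ((lastS s l).a : ℝ)).re := by
      intro δ hδ
      have h1 := herrv hapos Bv hB δ (hδn' δ hδ) ((lastS s l).a : ℝ) ⟨le_rfl, hlab.le⟩
      rw [tau_left hH] at h1
      have h2 := (abs_le.1 ((Complex.abs_re_le_norm _).trans h1)).1
      have h3 := lo1_le_re (hδh δ hδ) (rowEv (-1) ((lastS s l).L hd))
      rw [ev1_rowEv] at h3
      have h4 : ((evF (lastS s l) : ℚ) : ℝ) * 2 ^ (lastS s l).M <
          ((lo1 (rowEv (-1) ((lastS s l).L hd)) : ℚ) : ℝ) := by exact_mod_cast z3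
      rw [Complex.sub_re, re_div_pow] at h2
      push_cast at h2 h3
      have h5 : ((evF (lastS s l) : ℚ) : ℝ) <
          (ev2 (-1 : ℂ) (δ : ℂ) ((lastS s l).L hd)).re / 2 ^ (lastS s l).M := by
        rw [lt_div_iff₀ hM2]
        linarith
      linarith
    have hright : ∀ δ ∈ Icc (-1/2 : ℝ) (1/2), (w Bv δ ((lastS s l).bb : ℝ)).re < 0 := by
      intro δ hδ
      have h1 := herrv hapos Bv hB δ (hδn' δ hδ) ((lastS s l).bb : ℝ) ⟨hlab.le, le_rfl⟩
      rw [tau_right hH] at h1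
      have h2 := (abs_le.1 ((Complex.abs_re_le_norm _).trans h1)).2
      have h3 := lo1_le_re (hδh δ hδ) (smulL (-1) (rowEv 1 ((lastS s l).L hd)))
      rw [ev1_smulL, ev1_rowEv] at h3
      have h4 : ((evF (lastS s l) : ℚ) : ℝ) * 2 ^ (lastS s l).M <
          ((lo1 (smulL (-1) (rowEv 1 ((lastS s l).L hd))) : ℚ) : ℝ) := by exact_mod_cast z4
      rw [Complex.sub_re, re_div_pow] at h2
      push_cast at h2 h3
      rw [neg_one_mul, Complex.neg_re] at h3
      have h5 : ((evF (lastS s l) : ℚ) : ℝ) <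
          -((ev2 (1 : ℂ) (δ : ℂ) ((lastS s l).L hd)).re / 2 ^ (lastS s l).M) := by
        rw [← neg_div, lt_div_iff₀ hM2]
        linarith
      linarith
    refine ⟨⟨hga, hlab, by exact_mod_cast z1, hsol Bv hB, fun δ hδ => (hiv Bv hB δ hδ).1,
      fun δ hδ => (hiv Bv hB δ hδ).2, ?_, ?_, hright, ?_⟩, ?_, ?_, ?_, ?_⟩
    · -- positivity
      intro δ hδ
      obtain ⟨k1, k2⟩ := hcoef Bv hB δ hδ
      refine pos_of_concave (solOn_mono (hsol Bv hB δ hδ) le_rfl hlab.le) g0 hga k1 k2 ?_ ?_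
        (hleft δ hδ)
      · intro t ht
        obtain ⟨_, _, _, h4, _⟩ := c1 Bv hB δ (hδn' δ hδ)
        exact (h4 t ⟨ht.1, ht.2.trans hlab.le⟩).2
      · simp only
        rw [(hiv Bv hB δ hδ).1]
        exact hinitpos δ hδ
    · -- neg
      intro δ hδ t ht
      have h1 := herrq Bv hB δ (hδn' δ hδ) t ht
      have h2 := (abs_le.1 ((Complex.abs_re_le_norm _).trans h1)).2
      have h3 := lo2_le_re (hδh δ hδ) (tau_abs hH ht)
        (smulLL (-1) (qL (lastS s l) ((lastS s l).L hd)))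
      rw [ev2_smulLL] at h3
      have h4 : ((m : ℝ) + ((eqF (lastS s l) : ℚ) : ℝ)) * (2 ^ (lastS s l).M * (lastS s l).H) ≤
          ((lo2 (smulLL (-1) (qL (lastS s l) ((lastS s l).L hd))) : ℚ) : ℝ) := by
        exact_mod_cast z2
      rw [Complex.sub_re, re_div_powH] at h2
      push_cast at h3
      rw [neg_one_mul, Complex.neg_re] at h3
      have h5 : (m : ℝ) + ((eqF (lastS s l) : ℚ) : ℝ) ≤
          -((ev2 ((tauS (lastS s l) t : ℝ) : ℂ) (δ : ℂ)
            (qL (lastS s l) ((lastS s l).L hd))).re / (2 ^ (lastS s l).M * (lastS s l).H)) := by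
        rw [← neg_div, le_div_iff₀ (by positivity)]
        linarith
      simp only
      linarith
    · -- lip
      intro δ hδ δ' hδ' t ht
      have hL' : nh2 (dDel ((lastS s l).L hd)) / 2 ^ (lastS s l).M + 5 / 2 * evF (lastS s l)
          ≤ M1 := by
        simpa [finLip] using hL
      have hL'' : ((nh2 (dDel ((lastS s l).L hd)) : ℚ) : ℝ) / 2 ^ (lastS s l).M +
          5 / 2 * ((evF (lastS s l) : ℚ) : ℝ) ≤ (M1 : ℝ) := by
        have h := (Rat.cast_le (K := ℝ)).2 hL'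
        push_cast at h
        exact h
      refine real_lip (c2 Bv hB t ⟨g2.trans ht.1, ht.2⟩).1
        (fun z => hGv ((tauS (lastS s l) t : ℝ) : ℂ) z ((lastS s l).L hd) (lastS s l).M)
        (fun z hz => herrv hapos Bv hB z hz t ht) ?_ δ hδ δ' hδ'
      intro x hx
      have h1 := norm_ev2_le (hδabs x hx) (tau_abs hH ht) (dDel ((lastS s l).L hd))
      rw [norm_div, norm_pow, Complex.norm_ofNat]
      have h2 := div_le_div_of_nonneg_right h1 hM2.le
      linarith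
    · -- decreasing
      intro hsg t ht
      have hsg' : 5 / 2 * evF (lastS s l) * 2 ^ (lastS s l).M <
          lo2 (smulLL (-1) (dDel ((lastS s l).L hd))) := by simpa [finSign] using hsg
      have hsg'' : 5 / 2 * ((evF (lastS s l) : ℚ) : ℝ) * 2 ^ (lastS s l).M <
          ((lo2 (smulLL (-1) (dDel ((lastS s l).L hd))) : ℚ) : ℝ) := by
        have h := (Rat.cast_lt (K := ℝ)).2 hsg'
        push_cast at h
        exact h
      refine real_strictAnti (c2 Bv hB t ⟨g2.trans ht.1, ht.2⟩).1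
        (fun z => hGv ((tauS (lastS s l) t : ℝ) : ℂ) z ((lastS s l).L hd) (lastS s l).M)
        (fun z hz => herrv hapos Bv hB z hz t ht) ?_
      intro x hx
      have h1 := lo2_le_re (hδabs x hx) (tau_abs hH ht) (smulLL (-1) (dDel ((lastS s l).L hd)))
      rw [ev2_smulLL] at h1
      push_cast at h1
      rw [neg_one_mul, Complex.neg_re] at h1
      rw [re_div_pow, div_lt_iff₀ hM2]
      linarith
    · -- increasing
      intro hsg t ht
      have hsg' : 5 / 2 * evF (lastS s l) * 2 ^ (lastS s l).M <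
          lo2 (smulLL 1 (dDel ((lastS s l).L hd))) := by simpa [finSign] using hsg
      have hsg'' : 5 / 2 * ((evF (lastS s l) : ℚ) : ℝ) * 2 ^ (lastS s l).M <
          ((lo2 (smulLL 1 (dDel ((lastS s l).L hd))) : ℚ) : ℝ) := by
        have h := (Rat.cast_lt (K := ℝ)).2 hsg'
        push_cast at h
        exact h
      refine real_strictMono (c2 Bv hB t ⟨g2.trans ht.1, ht.2⟩).1
        (fun z => hGv ((tauS (lastS s l) t : ℝ) : ℂ) z ((lastS s l).L hd) (lastS s l).M)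
        (fun z hz => herrv hapos Bv hB z hz t ht) ?_
      intro x hx
      have h1 := lo2_le_re (hδabs x hx) (tau_abs hH ht) (smulLL 1 (dDel ((lastS s l).L hd)))
      rw [ev2_smulLL] at h1
      push_cast at h1
      rw [one_mul] at h1
      rw [re_div_pow, lt_div_iff₀ hM2]
      linarith
    · -- convex
      intro hcv t ht
      have hcv' : 25 / 2 * evF (lastS s l) * 2 ^ (lastS s l).M <
          lo2 (dDel (dDel ((lastS s l).L hd))) := by simpa [finConv] using hcv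
      have hcv'' : 25 / 2 * ((evF (lastS s l) : ℚ) : ℝ) * 2 ^ (lastS s l).M <
          ((lo2 (dDel (dDel ((lastS s l).L hd))) : ℚ) : ℝ) := by
        have h := (Rat.cast_lt (K := ℝ)).2 hcv'
        push_cast at h
        exact h
      refine real_strictConvex (c2 Bv hB t ⟨g2.trans ht.1, ht.2⟩).1
        (fun z => hGv ((tauS (lastS s l) t : ℝ) : ℂ) z ((lastS s l).L hd) (lastS s l).M)
        (fun z => hGv ((tauS (lastS s l) t : ℝ) : ℂ) z (dDel ((lastS s l).L hd)) (lastS s l).M)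
        (fun z hz => herrv hapos Bv hB z hz t ht) ?_
      intro x hx
      have h1 := lo2_le_re (hδabs x hx) (tau_abs hH ht) (dDel (dDel ((lastS s l).L hd)))
      rw [re_div_pow, lt_div_iff₀ hM2]
      linarith
    · -- dependence on Bv
      intro Bv' hB' δ hδ t ht
      have h1 := c4 Bv Bv' hB hB' δ (hδn' δ hδ) t ht
      have h2 := NB_v (mul_nonneg (sc_nonneg (lastS s l).nu1) (abs_nonneg (Bv - Bv'))) hgpos
        hapos ht.1 h1
      have h3 := (Complex.abs_re_le_norm _).trans h2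
      rw [Complex.sub_re] at h3
      push_cast
      refine h3.trans (le_of_eq ?_)
      ring
  · -- window data
    intro p1 p2 d vlo vhi qlo qhi khi hW Bv hB δ hδ
    simp only [finW, Bool.and_eq_true, decide_eq_true_eq] at hW
    obtain ⟨⟨⟨⟨⟨⟨⟨⟨⟨⟨y1, y2⟩, y3⟩, y4⟩, y5⟩, y6⟩, y7⟩, y8⟩, y9⟩, y10⟩, y11⟩ := hW
    have y1' : (lastS s l).H < (lastS s l).C := by simpa using y1
    have y2' : 1 ≤ d := by simpa using y2
    have hapos := step_a_pos y1'
    have hM2 : (0 : ℝ) < 2 ^ (lastS s l).M := by positivity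
    have hHr : (0 : ℝ) < (lastS s l).H := by exact_mod_cast hH
    have hdr : (0 : ℝ) < d := by exact_mod_cast y2'
    have hbmem : ((lastS s l).bb : ℝ) ∈ Icc ((lastS s l).a : ℝ) ((lastS s l).bb : ℝ) :=
      ⟨hlab.le, le_rfl⟩
    have hbmem' : ((lastS s l).bb : ℝ) ∈ Icc (s.a : ℝ) ((lastS s l).bb : ℝ) :=
      ⟨g1.le, le_rfl⟩
    have Ev : ∀ z : ℂ, ‖z‖ ≤ 1 → ‖w Bv z ((lastS s l).bb : ℝ) -
        ev1 z (rowEv 1 ((lastS s l).L hd)) / 2 ^ (lastS s l).M‖ ≤
          ((evF (lastS s l) : ℚ) : ℝ) := by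
      intro z hz
      have h1 := herrv hapos Bv hB z hz _ hbmem
      rw [tau_right hH] at h1
      rw [ev1_rowEv]
      simpa using h1
    have Eq : ∀ z : ℂ, ‖z‖ ≤ 1 → ‖χ Bv z ((lastS s l).bb : ℝ) -
        ev1 z (rowEv 1 (qL (lastS s l) ((lastS s l).L hd))) /
          (2 ^ (lastS s l).M * (lastS s l).H)‖ ≤ ((eqF (lastS s l) : ℚ) : ℝ) := by
      intro z hz
      have h1 := herrq Bv hB z hz _ hbmem
      rw [tau_right hH] at h1
      rw [ev1_rowEv]
      simpa using h1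
    have vlo' : (vlo : ℝ) ≤ (w Bv δ ((lastS s l).bb : ℝ)).re := by
      have h2 := (abs_le.1 ((Complex.abs_re_le_norm _).trans (Ev δ (hδn' δ hδ)))).1
      rw [Complex.sub_re, re_div_pow] at h2
      have h3 := lo1_le_re (hδh δ hδ) (rowEv 1 ((lastS s l).L hd))
      have h4 : ((vlo : ℝ) + ((evF (lastS s l) : ℚ) : ℝ)) * 2 ^ (lastS s l).M ≤
          ((lo1 (rowEv 1 ((lastS s l).L hd)) : ℚ) : ℝ) := by exact_mod_cast y6
      have h5 : (vlo : ℝ) + ((evF (lastS s l) : ℚ) : ℝ) ≤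
          (ev1 (δ : ℂ) (rowEv 1 ((lastS s l).L hd))).re / 2 ^ (lastS s l).M := by
        rw [le_div_iff₀ hM2]
        linarith
      linarith
    have vhi' : (w Bv δ ((lastS s l).bb : ℝ)).re ≤ (vhi : ℝ) := by
      have h2 := (abs_le.1 ((Complex.abs_re_le_norm _).trans (Ev δ (hδn' δ hδ)))).2
      rw [Complex.sub_re, re_div_pow] at h2
      have h3 := lo1_le_re (hδh δ hδ) (smulL (-1) (rowEv 1 ((lastS s l).L hd)))
      rw [ev1_smulL] at h3
      push_cast at h3
      rw [neg_one_mul, Complex.neg_re] at h3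
      have h4 : (-(vhi : ℝ) + ((evF (lastS s l) : ℚ) : ℝ)) * 2 ^ (lastS s l).M ≤
          ((lo1 (smulL (-1) (rowEv 1 ((lastS s l).L hd))) : ℚ) : ℝ) := by exact_mod_cast y7
      have h5 : -(vhi : ℝ) + ((evF (lastS s l) : ℚ) : ℝ) ≤
          -((ev1 (δ : ℂ) (rowEv 1 ((lastS s l).L hd))).re / 2 ^ (lastS s l).M) := by
        rw [← neg_div, le_div_iff₀ hM2]
        linarith
      linarith
    have qlo' : (qlo : ℝ) ≤ (χ Bv δ ((lastS s l).bb : ℝ)).re := by
      have h2 := (abs_le.1 ((Complex.abs_re_le_norm _).trans (Eq δ (hδn' δ hδ)))).1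
      rw [Complex.sub_re, re_div_powH] at h2
      have h3 := lo1_le_re (hδh δ hδ) (rowEv 1 (qL (lastS s l) ((lastS s l).L hd)))
      have h4 : ((qlo : ℝ) + ((eqF (lastS s l) : ℚ) : ℝ)) *
          (2 ^ (lastS s l).M * (lastS s l).H) ≤
          ((lo1 (rowEv 1 (qL (lastS s l) ((lastS s l).L hd))) : ℚ) : ℝ) := by exact_mod_cast y8
      have h5 : (qlo : ℝ) + ((eqF (lastS s l) : ℚ) : ℝ) ≤
          (ev1 (δ : ℂ) (rowEv 1 (qL (lastS s l) ((lastS s l).L hd)))).re /
            (2 ^ (lastS s l).M * (lastS s l).H) := by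
        rw [le_div_iff₀ (by positivity)]
        linarith
      linarith
    have qhi' : (χ Bv δ ((lastS s l).bb : ℝ)).re ≤ (qhi : ℝ) := by
      have h2 := (abs_le.1 ((Complex.abs_re_le_norm _).trans (Eq δ (hδn' δ hδ)))).2
      rw [Complex.sub_re, re_div_powH] at h2
      have h3 := lo1_le_re (hδh δ hδ) (smulL (-1) (rowEv 1 (qL (lastS s l) ((lastS s l).L hd))))
      rw [ev1_smulL] at h3
      push_cast at h3
      rw [neg_one_mul, Complex.neg_re] at h3
      have h4 : (-(qhi : ℝ) + ((eqF (lastS s l) : ℚ) : ℝ)) *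
          (2 ^ (lastS s l).M * (lastS s l).H) ≤
          ((lo1 (smulL (-1) (rowEv 1 (qL (lastS s l) ((lastS s l).L hd)))) : ℚ) : ℝ) := by
        exact_mod_cast y9
      have h5 : -(qhi : ℝ) + ((eqF (lastS s l) : ℚ) : ℝ) ≤
          -((ev1 (δ : ℂ) (rowEv 1 (qL (lastS s l) ((lastS s l).L hd)))).re /
            (2 ^ (lastS s l).M * (lastS s l).H)) := by
        rw [← neg_div, le_div_iff₀ (by positivity)]
        linarith
      linarith
    have khi' : (w Bv δ ((lastS s l).bb : ℝ)).re - (χ Bv δ ((lastS s l).bb : ℝ)).re ≤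
        (khi : ℝ) := by
      have h2 := (abs_le.1 ((Complex.abs_re_le_norm _).trans (Ev δ (hδn' δ hδ)))).2
      rw [Complex.sub_re, re_div_pow] at h2
      have h2q := (abs_le.1 ((Complex.abs_re_le_norm _).trans (Eq δ (hδn' δ hδ)))).1
      rw [Complex.sub_re, re_div_powH] at h2q
      have h3 := lo1_le_re (hδh δ hδ) (addL (smulL (-(lastS s l).H)
        (rowEv 1 ((lastS s l).L hd))) (rowEv 1 (qL (lastS s l) ((lastS s l).L hd))))
      rw [ev1_addL, ev1_smulL] at h3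
      have h3' : ((((-((lastS s l).H : ℤ) : ℤ) : ℂ) *
          ev1 (δ : ℂ) (rowEv 1 ((lastS s l).L hd)) +
          ev1 (δ : ℂ) (rowEv 1 (qL (lastS s l) ((lastS s l).L hd))))).re =
          -((lastS s l).H : ℝ) * (ev1 (δ : ℂ) (rowEv 1 ((lastS s l).L hd))).re +
          (ev1 (δ : ℂ) (rowEv 1 (qL (lastS s l) ((lastS s l).L hd)))).re := by
        rw [Complex.add_re]
        congr 1
        have : (((-((lastS s l).H : ℤ) : ℤ) : ℂ)) = (((-((lastS s l).H : ℝ)) : ℝ) : ℂ) := by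
          push_cast; ring
        rw [this, Complex.re_ofReal_mul]
      rw [h3'] at h3
      have h4 : (-(khi : ℝ) + ((evF (lastS s l) : ℚ) : ℝ) + ((eqF (lastS s l) : ℚ) : ℝ)) *
          (2 ^ (lastS s l).M * (lastS s l).H) ≤
          ((lo1 (addL (smulL (-(lastS s l).H) (rowEv 1 ((lastS s l).L hd)))
            (rowEv 1 (qL (lastS s l) ((lastS s l).L hd)))) : ℚ) : ℝ) := by exact_mod_cast y11
      have h5 : -(khi : ℝ) + ((evF (lastS s l) : ℚ) : ℝ) + ((eqF (lastS s l) : ℚ) : ℝ) ≤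
          -((ev1 (δ : ℂ) (rowEv 1 ((lastS s l).L hd))).re / 2 ^ (lastS s l).M) +
          (ev1 (δ : ℂ) (rowEv 1 (qL (lastS s l) ((lastS s l).L hd)))).re /
            (2 ^ (lastS s l).M * (lastS s l).H) := by
        have e1 : -((ev1 (δ : ℂ) (rowEv 1 ((lastS s l).L hd))).re / 2 ^ (lastS s l).M) +
          (ev1 (δ : ℂ) (rowEv 1 (qL (lastS s l) ((lastS s l).L hd)))).re /
            (2 ^ (lastS s l).M * (lastS s l).H) =
          (-((lastS s l).H : ℝ) * (ev1 (δ : ℂ) (rowEv 1 ((lastS s l).L hd))).re +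
          (ev1 (δ : ℂ) (rowEv 1 (qL (lastS s l) ((lastS s l).L hd)))).re) /
            (2 ^ (lastS s l).M * (lastS s l).H) := by
          field_simp
        rw [e1, le_div_iff₀ (by positivity)]
        linarith
      linarith
    refine ⟨hsol Bv hB δ hδ, (hiv Bv hB δ hδ).1, ?_, vlo', vhi', qlo', qhi', khi', ?_⟩
    · obtain ⟨k1, k2⟩ := hcoef Bv hB δ hδ
      refine pos_of_concave (hsol Bv hB δ hδ) g0 g1 k1 k2 ?_ ?_ ?_
      · intro t ht
        obtain ⟨_, _, _, h4, _⟩ := c1 Bv hB δ (hδn' δ hδ)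
        exact (h4 t ht).2
      · simp only
        rw [(hiv Bv hB δ hδ).1]
        exact hinitpos δ hδ
      · have : (0 : ℝ) < vlo := by exact_mod_cast y10
        simp only
        linarith
    · intro δ' hδ' hlt
      have hFv := (c2 Bv hB _ hbmem').1
      have hFq := (c2 Bv hB _ hbmem').2
      -- κ increasing
      have m1 := real_strictMono hFq (fun z => hG1 z _ _) Eq (by
        intro x hx
        have h1 := lo1_le_re (hδabs x hx) (dRow (rowEv 1 (qL (lastS s l) ((lastS s l).L hd))))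
        rw [re_div_powH, lt_div_iff₀ (by positivity)]
        have h2 : 5 / 2 * ((eqF (lastS s l) : ℚ) : ℝ) * (2 ^ (lastS s l).M * (lastS s l).H) <
          ((lo1 (dRow (rowEv 1 (qL (lastS s l) ((lastS s l).L hd)))) : ℚ) : ℝ) := by
          have h := (Rat.cast_lt (K := ℝ)).2 y5
          push_cast at h
          exact h
        linarith) hδ hδ' hlt
      -- lower cone
      have m2 := real_strictMono
        (F := fun z => (d : ℂ) * w Bv z ((lastS s l).bb : ℝ) -
          (p1 : ℂ) * χ Bv z ((lastS s l).bb : ℝ))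
        (G := fun z => (d : ℂ) * (ev1 z (rowEv 1 ((lastS s l).L hd)) / 2 ^ (lastS s l).M) -
          (p1 : ℂ) * (ev1 z (rowEv 1 (qL (lastS s l) ((lastS s l).L hd))) /
            (2 ^ (lastS s l).M * (lastS s l).H)))
        (G' := fun z => (d : ℂ) * (ev1 z (dRow (rowEv 1 ((lastS s l).L hd))) /
            2 ^ (lastS s l).M) -
          (p1 : ℂ) * (ev1 z (dRow (rowEv 1 (qL (lastS s l) ((lastS s l).L hd)))) /
            (2 ^ (lastS s l).M * (lastS s l).H)))
        (E := (d : ℝ) * ((evF (lastS s l) : ℚ) : ℝ) + (p1 : ℝ) * ((eqF (lastS s l) : ℚ) : ℝ))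
        ((hFv.const_mul _).sub (hFq.const_mul _))
        (fun z => ((hG1 z _ _).const_mul _).sub ((hG1 z _ _).const_mul _))
        (fun z hz => by
          have e : ((d : ℂ) * w Bv z ((lastS s l).bb : ℝ) -
            (p1 : ℂ) * χ Bv z ((lastS s l).bb : ℝ)) -
            ((d : ℂ) * (ev1 z (rowEv 1 ((lastS s l).L hd)) / 2 ^ (lastS s l).M) -
            (p1 : ℂ) * (ev1 z (rowEv 1 (qL (lastS s l) ((lastS s l).L hd))) /
            (2 ^ (lastS s l).M * (lastS s l).H))) =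
            (d : ℂ) * (w Bv z ((lastS s l).bb : ℝ) -
              ev1 z (rowEv 1 ((lastS s l).L hd)) / 2 ^ (lastS s l).M) -
            (p1 : ℂ) * (χ Bv z ((lastS s l).bb : ℝ) -
              ev1 z (rowEv 1 (qL (lastS s l) ((lastS s l).L hd))) /
            (2 ^ (lastS s l).M * (lastS s l).H)) := by ring
          rw [e]
          refine (norm_sub_le _ _).trans ?_
          rw [norm_mul, norm_mul, Complex.norm_natCast, Complex.norm_natCast]
          exact add_le_add (mul_le_mul_of_nonneg_left (Ev z hz) (Nat.cast_nonneg _))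
            (mul_le_mul_of_nonneg_left (Eq z hz) (Nat.cast_nonneg _)))
        (by
          intro x hx
          have h1 := lo1_le_re (hδabs x hx)
            (addL (smulL (d * (lastS s l).H) (dRow (rowEv 1 ((lastS s l).L hd))))
              (smulL (-p1) (dRow (rowEv 1 (qL (lastS s l) ((lastS s l).L hd))))))
          rw [ev1_addL, ev1_smulL, ev1_smulL] at h1
          have h2 : 5 / 2 * ((d : ℝ) * ((evF (lastS s l) : ℚ) : ℝ) +
              (p1 : ℝ) * ((eqF (lastS s l) : ℚ) : ℝ)) * (2 ^ (lastS s l).M * (lastS s l).H) <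
            ((lo1 (addL (smulL (d * (lastS s l).H) (dRow (rowEv 1 ((lastS s l).L hd))))
              (smulL (-p1) (dRow (rowEv 1 (qL (lastS s l) ((lastS s l).L hd))))))  : ℚ) : ℝ) := by
            have h := (Rat.cast_lt (K := ℝ)).2 y3
            push_cast at h
            exact h
          have e : ((d : ℂ) * (ev1 (x : ℂ) (dRow (rowEv 1 ((lastS s l).L hd))) /
              2 ^ (lastS s l).M) -
            (p1 : ℂ) * (ev1 (x : ℂ) (dRow (rowEv 1 (qL (lastS s l) ((lastS s l).L hd)))) /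
              (2 ^ (lastS s l).M * (lastS s l).H))) =
            (((d * (lastS s l).H : ℤ) : ℂ) * ev1 (x : ℂ) (dRow (rowEv 1 ((lastS s l).L hd))) +
            (((-p1 : ℤ) : ℂ) * ev1 (x : ℂ)
              (dRow (rowEv 1 (qL (lastS s l) ((lastS s l).L hd)))))) /
              (2 ^ (lastS s l).M * (lastS s l).H) := by
            have hHc : ((lastS s l).H : ℂ) ≠ 0 := by exact_mod_cast hHr.ne'
            push_cast
            field_simp
            ring
          rw [e, re_div_powH, lt_div_iff₀ (by positivity)]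
          linarith) hδ hδ' hlt
      -- upper cone
      have m3 := real_strictMono
        (F := fun z => (p2 : ℂ) * χ Bv z ((lastS s l).bb : ℝ) -
          (d : ℂ) * w Bv z ((lastS s l).bb : ℝ))
        (G := fun z => (p2 : ℂ) * (ev1 z (rowEv 1 (qL (lastS s l) ((lastS s l).L hd))) /
            (2 ^ (lastS s l).M * (lastS s l).H)) -
          (d : ℂ) * (ev1 z (rowEv 1 ((lastS s l).L hd)) / 2 ^ (lastS s l).M))
        (G' := fun z => (p2 : ℂ) * (ev1 z (dRow (rowEv 1 (qL (lastS s l)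
            ((lastS s l).L hd)))) / (2 ^ (lastS s l).M * (lastS s l).H)) -
          (d : ℂ) * (ev1 z (dRow (rowEv 1 ((lastS s l).L hd))) /
            2 ^ (lastS s l).M))
        (E := (d : ℝ) * ((evF (lastS s l) : ℚ) : ℝ) + (p2 : ℝ) * ((eqF (lastS s l) : ℚ) : ℝ))
        ((hFq.const_mul _).sub (hFv.const_mul _))
        (fun z => ((hG1 z _ _).const_mul _).sub ((hG1 z _ _).const_mul _))
        (fun z hz => by
          have e : ((p2 : ℂ) * χ Bv z ((lastS s l).bb : ℝ) -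
            (d : ℂ) * w Bv z ((lastS s l).bb : ℝ)) -
            ((p2 : ℂ) * (ev1 z (rowEv 1 (qL (lastS s l) ((lastS s l).L hd))) /
            (2 ^ (lastS s l).M * (lastS s l).H)) -
            (d : ℂ) * (ev1 z (rowEv 1 ((lastS s l).L hd)) / 2 ^ (lastS s l).M)) =
            (p2 : ℂ) * (χ Bv z ((lastS s l).bb : ℝ) -
              ev1 z (rowEv 1 (qL (lastS s l) ((lastS s l).L hd))) /
            (2 ^ (lastS s l).M * (lastS s l).H)) -
            (d : ℂ) * (w Bv z ((lastS s l).bb : ℝ) -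
              ev1 z (rowEv 1 ((lastS s l).L hd)) / 2 ^ (lastS s l).M) := by ring
          rw [e]
          refine (norm_sub_le _ _).trans ?_
          rw [norm_mul, norm_mul, Complex.norm_natCast, Complex.norm_natCast, add_comm]
          exact add_le_add (mul_le_mul_of_nonneg_left (Ev z hz) (Nat.cast_nonneg _))
            (mul_le_mul_of_nonneg_left (Eq z hz) (Nat.cast_nonneg _)))
        (by
          intro x hx
          have h1 := lo1_le_re (hδabs x hx)
            (addL (smulL (-(d * (lastS s l).H)) (dRow (rowEv 1 ((lastS s l).L hd))))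
              (smulL p2 (dRow (rowEv 1 (qL (lastS s l) ((lastS s l).L hd))))))
          rw [ev1_addL, ev1_smulL, ev1_smulL] at h1
          have h2 : 5 / 2 * ((d : ℝ) * ((evF (lastS s l) : ℚ) : ℝ) +
              (p2 : ℝ) * ((eqF (lastS s l) : ℚ) : ℝ)) * (2 ^ (lastS s l).M * (lastS s l).H) <
            ((lo1 (addL (smulL (-(d * (lastS s l).H)) (dRow (rowEv 1 ((lastS s l).L hd))))
              (smulL p2 (dRow (rowEv 1 (qL (lastS s l) ((lastS s l).L hd))))))  : ℚ) : ℝ) := by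
            have h := (Rat.cast_lt (K := ℝ)).2 y4
            push_cast at h
            exact h
          have e : ((p2 : ℂ) * (ev1 (x : ℂ) (dRow (rowEv 1 (qL (lastS s l)
              ((lastS s l).L hd)))) / (2 ^ (lastS s l).M * (lastS s l).H)) -
            (d : ℂ) * (ev1 (x : ℂ) (dRow (rowEv 1 ((lastS s l).L hd))) /
              2 ^ (lastS s l).M)) =
            (((-(d * (lastS s l).H) : ℤ) : ℂ) *
              ev1 (x : ℂ) (dRow (rowEv 1 ((lastS s l).L hd))) +
            (((p2 : ℤ) : ℂ) * ev1 (x : ℂ)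
              (dRow (rowEv 1 (qL (lastS s l) ((lastS s l).L hd)))))) /
              (2 ^ (lastS s l).M * (lastS s l).H) := by
            have hHc : ((lastS s l).H : ℂ) ≠ 0 := by exact_mod_cast hHr.ne'
            push_cast
            field_simp
            ring
          rw [e, re_div_powH, lt_div_iff₀ (by positivity)]
          linarith) hδ hδ' hlt
      simp only [Complex.sub_re, Complex.mul_re, Complex.natCast_re, Complex.natCast_im,
        zero_mul, sub_zero] at m1 m2 m3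
      refine ⟨by linarith, ?_, ?_⟩
      · rw [div_mul_eq_mul_div, div_lt_iff₀ hdr]
        nlinarith
      · rw [div_mul_eq_mul_div, lt_div_iff₀ hdr]
        nlinarith

end Pool.Agent.W2helper71.LN
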